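import Mathlib
import Pool.Agent.Q46.PIdx.CntF

/-! Alternating matrices with two and three prescribed kernel vectors. -/

set_option autoImplicit false
set_option linter.all false

open Matrix

namespace Pool.Agent.Q46.PX

open Pool.Agent.Y109.PI Pool.Agent.Q46.PIdx

section

variable {F : Type*} [Field F] {I : Type*} [Fintype I] [DecidableEq I]

/-- the rank of an alternating matrix is even -/
theorem rank_even (b : Matrix I I F) (hb : Alt b) : Even b.rank := by
  by_contra hodd
  rw [Nat.not_even_iff_odd] at hodd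
  obtain ⟨s, hs⟩ := hodd
  obtain ⟨e, f, h⟩ := decomp (R := F) (K := F) (fun a b h => h) s b hb (by
    have h0 : b.map (algebraMap F F) = b := by ext u v; rfl
    rw [h0, hs])
  have hle : LinearMap.range b.mulVecLin ≤ Submodule.span F (Set.range (Sum.elim e f)) := by
    rintro _ ⟨v, rfl⟩
    rw [Matrix.mulVecLin_apply, h, Matrix.sum_mulVec]
    refine Submodule.sum_mem _ fun i _ => ?_
    rw [wdg_mulVec]
    exact Submodule.sub_mem _ (Submodule.smul_mem _ _ (Submodule.subset_span ⟨Sum.inl i, rfl⟩))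
      (Submodule.smul_mem _ _ (Submodule.subset_span ⟨Sum.inr i, rfl⟩))
  have h1 := Submodule.finrank_mono hle
  have h2 := finrank_range_le_card (R := F) (Sum.elim e f)
  rw [Fintype.card_sum, Fintype.card_fin] at h2
  rw [Set.finrank] at h2
  rw [Matrix.rank] at hs
  omega

/-- the kernel -/
def kr (η : altG F I) : Submodule F (I → F) := LinearMap.ker η.1.mulVecLin

theorem mem_kr {η : altG F I} {x : I → F} : x ∈ kr η ↔ η.1 *ᵥ x = 0 := by
  rw [kr, LinearMap.mem_ker, Matrix.mulVecLin_apply]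

theorem kr_even (hI : Even (Fintype.card I)) (η : altG F I) : Even (Module.finrank F (kr η)) := by
  have h1 := LinearMap.finrank_range_add_finrank_ker η.1.mulVecLin
  rw [Module.finrank_fintype_fun_eq_card] at h1
  have h2 := rank_even η.1 η.2
  rw [Matrix.rank] at h2
  rw [← h1, Nat.even_add] at hI
  exact hI.1 h2

variable [Fintype F]

theorem card_kr (η : altG F I) : Nat.card (kr η) = Nat.card F ^ Module.finrank F (kr η) := by
  rw [Module.natCard_eq_pow_finrank (K := F)]

/-- a kernel containing two independent vectors has `q ^ 2` or at least `q ^ 4` elements -/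
theorem card_kr_or (hI : Even (Fintype.card I)) (η : altG F I) (x y : I → F) (hx : η.1 *ᵥ x = 0) (hy : η.1 *ᵥ y = 0)
    (hx0 : x ≠ 0) (hxy : ∀ t : F, y ≠ t • x) :
    Nat.card (kr η) = Nat.card F ^ 2 ∨ Nat.card F ^ 4 ≤ Nat.card (kr η) := by
  have hq1 : 1 < Nat.card F := one_lt_q
  have hli : LinearIndependent F ![(⟨x, mem_kr.2 hx⟩ : kr η), ⟨y, mem_kr.2 hy⟩] := by
    rw [LinearIndependent.pair_iff' (by
      intro h
      exact hx0 (congrArg Subtype.val h))]
    intro t h
    exact hxy t (congrArg Subtype.val h).symm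
  have h2 : 2 ≤ Module.finrank F (kr η) := by
    have := hli.fintype_card_le_finrank
    simpa using this
  obtain ⟨m, hm⟩ := kr_even hI η
  rw [card_kr]
  by_cases h : Module.finrank F (kr η) = 2
  · left; rw [h]
  · right
    exact Nat.pow_le_pow_right (by omega) (by omega)

/-- two functionals -/
theorem card_dt2 {x y : I → F} (hx : x ≠ 0) (hy : ∀ t : F, y ≠ t • x) :
    Nat.card (LinearMap.ker ((dt x).prod (dt y))) * Nat.card F ^ 2 = Nat.card F ^ Fintype.card I := by
  obtain ⟨a, b, hax, hay, hbx, hby⟩ := exists_dual hx hy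
  have h := card_ker_range ((dt x).prod (dt y))
  have h1 : LinearMap.range ((dt x).prod (dt y)) = ⊤ := by
    rw [LinearMap.range_eq_top]
    rintro ⟨s, t⟩
    refine ⟨s • a + t • b, ?_⟩
    change (x ⬝ᵥ (s • a + t • b), y ⬝ᵥ (s • a + t • b)) = (s, t)
    simp only [dotProduct_add, dotProduct_smul, smul_eq_mul]
    rw [dotProduct_comm x a, dotProduct_comm x b, dotProduct_comm y a, dotProduct_comm y b, hax, hay, hbx, hby]
    simp
  rw [h1, Nat.card_congr (Submodule.topEquiv (R := F) (M := F × F)).toEquiv, Nat.card_prod, Nat.card_fun,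
    Nat.card_eq_fintype_card (α := I)] at h
  rw [← h]; ring

/-- the matrices killing two vectors -/
def K2 (x y : I → F) : Submodule F (altG F I) := LinearMap.ker ((ev x).prod (ev y))

theorem mem_K2 {x y : I → F} {η : altG F I} : η ∈ K2 x y ↔ η.1 *ᵥ x = 0 ∧ η.1 *ᵥ y = 0 := by
  rw [K2, LinearMap.mem_ker, LinearMap.prod_apply]
  change ((_ : I → F), (_ : I → F)) = 0 ↔ _
  rw [ev_apply, ev_apply, Prod.mk_eq_zero]

/-- lower bound for the number of matrices killing two vectors -/
theorem card_K2_ge {x y : I → F} (hx : x ≠ 0) (hy : ∀ t : F, y ≠ t • x) :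
    Nat.card (altG F I) * Nat.card F ^ 3 ≤ Nat.card (K2 x y) * Nat.card F ^ (2 * Fintype.card I) := by
  have h1 := card_alt1 hx
  let ψ : LinearMap.ker (ev (F := F) x) →ₗ[F] (I → F) := (ev y).comp (Submodule.subtype _)
  have h2 := card_ker_range (F := F) (A := LinearMap.ker (ev (F := F) x)) (B := I → F) ψ
  have h3 : Nat.card (LinearMap.range ψ) ≤ Nat.card (LinearMap.ker ((dt x).prod (dt y))) := by
    refine Nat.card_le_card_of_injective _ (Submodule.inclusion_injective (?_ : LinearMap.range ψ ≤ _))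
    rintro _ ⟨η, rfl⟩
    rw [LinearMap.mem_ker, LinearMap.prod_apply]
    change ((_ : F), (_ : F)) = 0
    rw [Prod.mk_eq_zero]
    have hη : η.1.1 *ᵥ x = 0 := η.2
    refine ⟨?_, alt_dot_self η.1.2 y⟩
    change x ⬝ᵥ (η.1.1 *ᵥ y) = 0
    rw [alt_dot η.1.2, hη, dotProduct_zero, neg_zero]
  have h4 : Nat.card (LinearMap.ker ψ) ≤ Nat.card (K2 x y) := by
    refine Nat.card_le_card_of_injective (fun η : LinearMap.ker ψ => (⟨η.1.1, mem_K2.2 ⟨η.1.2, η.2⟩⟩ : K2 x y)) ?_
    intro a b h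
    exact Subtype.ext (Subtype.ext (congrArg (fun q : K2 x y => q.1) h))
  have h5 := card_dt2 hx hy
  set Y := Nat.card F ^ Fintype.card I with hY
  have hYY : Nat.card F ^ (2 * Fintype.card I) = Y * Y := by rw [hY]; ring
  rw [hYY]
  calc Nat.card (altG F I) * Nat.card F ^ 3
      = (Nat.card (altG F I) * Nat.card F) * Nat.card F ^ 2 := by ring
    _ = Nat.card (LinearMap.ker (ev (F := F) x)) * Y * Nat.card F ^ 2 := by rw [← h1]
    _ = (Nat.card (LinearMap.ker ψ) * Nat.card (LinearMap.range ψ)) * Y * Nat.card F ^ 2 := by rw [h2]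
    _ = (Nat.card (LinearMap.ker ψ) * Y) * (Nat.card (LinearMap.range ψ) * Nat.card F ^ 2) := by ring
    _ ≤ (Nat.card (K2 x y) * Y) * (Nat.card (LinearMap.ker ((dt x).prod (dt y))) * Nat.card F ^ 2) :=
        Nat.mul_le_mul (Nat.mul_le_mul_right _ h4) (Nat.mul_le_mul_right _ h3)
    _ = Nat.card (K2 x y) * (Y * Y) := by rw [h5]; ring

/-- a dual vector for three independent vectors -/
theorem exists_dual3 {x y z : I → F} (hx : x ≠ 0) (hy : ∀ t : F, y ≠ t • x) (hz : ∀ s t : F, z ≠ s • x + t • y) :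
    ∃ e : I → F, e ⬝ᵥ x = 0 ∧ e ⬝ᵥ y = 0 ∧ e ⬝ᵥ z = 1 := by
  obtain ⟨a, b, hax, hay, hbx, hby⟩ := exists_dual hx hy
  set z' : I → F := z - (a ⬝ᵥ z) • x - (b ⬝ᵥ z) • y with hz'
  have hz0 : z' ≠ 0 := by
    intro h
    rw [hz', sub_sub, sub_eq_zero] at h
    exact hz _ _ h
  obtain ⟨j, hj⟩ : ∃ j, z' j ≠ 0 := by
    by_contra h
    push Not at h
    exact hz0 (funext h)
  -- e(v) = (v - (a.v) x - (b.v) y)_j / z'_j
  refine ⟨(z' j)⁻¹ • (Pi.single j 1 - x j • a - y j • b), ?_, ?_, ?_⟩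
  · rw [smul_dotProduct, sub_dotProduct, sub_dotProduct, smul_dotProduct, smul_dotProduct, single_dotProduct, hax,
      hbx]
    simp
  · rw [smul_dotProduct, sub_dotProduct, sub_dotProduct, smul_dotProduct, smul_dotProduct, single_dotProduct, hay,
      hby]
    simp
  · rw [smul_dotProduct, sub_dotProduct, sub_dotProduct, smul_dotProduct, smul_dotProduct, single_dotProduct,
      one_mul, smul_eq_mul]
    have : z j - x j • (a ⬝ᵥ z) - y j • (b ⬝ᵥ z) = z' j := by
      rw [hz']
      simp only [Pi.sub_apply, Pi.smul_apply, smul_eq_mul]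
      ring
    rw [this, inv_mul_cancel₀ hj]

/-- the matrices killing three vectors -/
def K3 (x y z : I → F) : Submodule F (altG F I) := K2 x y ⊓ LinearMap.ker (ev z)

theorem mem_K3 {x y z : I → F} {η : altG F I} : η ∈ K3 x y z ↔ (η.1 *ᵥ x = 0 ∧ η.1 *ᵥ y = 0) ∧ η.1 *ᵥ z = 0 := by
  rw [K3, Submodule.mem_inf, mem_K2, LinearMap.mem_ker, ev_apply]

/-- upper bound for the number of matrices killing three vectors -/
theorem card_K3_le {x y z : I → F} (hx : x ≠ 0) (hy : ∀ t : F, y ≠ t • x) (hz : ∀ s t : F, z ≠ s • x + t • y) :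
    Nat.card (K3 x y z) * Nat.card F ^ Fintype.card I ≤ Nat.card (K2 x y) * Nat.card F ^ 3 := by
  obtain ⟨e, hex, hey, hez⟩ := exists_dual3 hx hy hz
  let ψ : K2 (F := F) x y →ₗ[F] (I → F) := (ev z).comp (Submodule.subtype _)
  let φ : (I → F) →ₗ[F] F × F × F := (dt x).prod ((dt y).prod (dt z))
  have hφ : ∀ w, φ w = (x ⬝ᵥ w, y ⬝ᵥ w, z ⬝ᵥ w) := fun w => rfl
  have h1 := card_ker_range (F := F) (A := K2 (F := F) x y) (B := I → F) ψ
  have h2 := card_ker_range φ
  have h3 : Nat.card (LinearMap.ker φ) ≤ Nat.card (LinearMap.range ψ) := by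
    refine Nat.card_le_card_of_injective _ (Submodule.inclusion_injective (?_ : LinearMap.ker φ ≤ _))
    intro w hw
    rw [LinearMap.mem_ker, hφ, Prod.mk_eq_zero, Prod.mk_eq_zero] at hw
    obtain ⟨h1, h2, h3⟩ := hw
    refine ⟨⟨⟨wdg w e, alt_wdg _ _⟩, mem_K2.2 ⟨?_, ?_⟩⟩, ?_⟩
    · change wdg w e *ᵥ x = 0
      rw [wdg_mulVec, hex, dotProduct_comm w x, h1, zero_smul, zero_smul, sub_zero]
    · change wdg w e *ᵥ y = 0
      rw [wdg_mulVec, hey, dotProduct_comm w y, h2, zero_smul, zero_smul, sub_zero]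
    · change wdg w e *ᵥ z = w
      rw [wdg_mulVec, hez, dotProduct_comm w z, h3, zero_smul, one_smul, sub_zero]
  have h4 : Nat.card (K3 x y z) ≤ Nat.card (LinearMap.ker ψ) := by
    refine Nat.card_le_card_of_injective (fun η : K3 x y z =>
      (⟨⟨η.1, mem_K2.2 (mem_K3.1 η.2).1⟩, (mem_K3.1 η.2).2⟩ : LinearMap.ker ψ)) ?_
    intro a b h
    exact Subtype.ext (congrArg (fun q : LinearMap.ker ψ => q.1.1) h)
  have h5 : Nat.card (LinearMap.range φ) ≤ Nat.card F ^ 3 := by
    have h5 : Nat.card (LinearMap.range φ) ≤ Nat.card (F × F × F) :=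
      Nat.card_le_card_of_injective _ (Subtype.val_injective)
    rw [Nat.card_prod, Nat.card_prod] at h5
    calc _ ≤ _ := h5
      _ = _ := by ring
  have h6 : Nat.card (I → F) = Nat.card F ^ Fintype.card I := by
    rw [Nat.card_fun, Nat.card_eq_fintype_card (α := I)]
  rw [h6] at h2
  calc Nat.card (K3 x y z) * Nat.card F ^ Fintype.card I
      ≤ Nat.card (LinearMap.ker ψ) * (Nat.card (LinearMap.ker φ) * Nat.card (LinearMap.range φ)) := by
        rw [h2]; exact Nat.mul_le_mul_right _ h4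
    _ ≤ Nat.card (LinearMap.ker ψ) * (Nat.card (LinearMap.range ψ) * Nat.card F ^ 3) :=
        Nat.mul_le_mul_left _ (Nat.mul_le_mul h3 h5)
    _ = _ := by rw [← mul_assoc, h1]

end

end Pool.Agent.Q46.PX
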