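import Mathlib
import Pool.Agent.Q46.PX.A

/-! Simple kernel vectors: first moment. -/

set_option autoImplicit false
set_option linter.all false

open Matrix

namespace Pool.Agent.Q46.PX

open Pool.Agent.Y109.PI Pool.Agent.Q46.PIdx

section

variable {F : Type*} [Field F] [Fintype F] {I : Type*} [Fintype I] [DecidableEq I]
  {C : Type*} [AddCommGroup C] [Module F C] [Fintype C]

/-- a pair of vectors on which the space is not zero -/
def pr (L : C →ₗ[F] altG F I) (x y : I → F) : Prop := ∃ d, x ⬝ᵥ ((L d).1 *ᵥ y) ≠ 0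

/-- `x` is a simple kernel vector of `η` -/
def smp (L : C →ₗ[F] altG F I) (η : altG F I) (x : I → F) : Prop :=
  η.1 *ᵥ x = 0 ∧ (∃ y, η.1 *ᵥ y = 0 ∧ pr L x y) ∧ Nat.card (kr η) = Nat.card F ^ 2

omit [Fintype F] [Fintype C] in
theorem pr_indep {L : C →ₗ[F] altG F I} {x y : I → F} (h : pr L x y) : x ≠ 0 ∧ ∀ t : F, y ≠ t • x := by
  obtain ⟨d, hd⟩ := h
  constructor
  · rintro rfl
    exact hd (zero_dotProduct _)
  · rintro t rfl
    apply hd
    rw [Matrix.mulVec_smul, dotProduct_smul, alt_dot_self (L d).2, smul_zero]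

open Classical in
noncomputable def J (η : altG F I) (v : I → F) : ℚ := if η.1 *ᵥ v = 0 then 1 else 0

omit [Fintype F] in
theorem J_pos {η : altG F I} {v : I → F} (h : η.1 *ᵥ v = 0) : J η v = 1 := if_pos h
omit [Fintype F] in
theorem J_neg {η : altG F I} {v : I → F} (h : ¬ η.1 *ᵥ v = 0) : J η v = 0 := if_neg h
omit [Fintype F] in
theorem J_nonneg (η : altG F I) (v : I → F) : 0 ≤ J η v := by
  by_cases h : η.1 *ᵥ v = 0
  · rw [J_pos h]; norm_num
  · rw [J_neg h]

open Classical in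
/-- vectors paired with `x` -/
noncomputable def YY (L : C →ₗ[F] altG F I) (x : I → F) : Finset (I → F) := Finset.univ.filter fun y => pr L x y

open Classical in
/-- vectors outside the span -/
noncomputable def ZZ (x y : I → F) : Finset (I → F) := Finset.univ.filter fun z => ∀ s t : F, z ≠ s • x + t • y

open Classical in
noncomputable def KR (η : altG F I) : Finset (I → F) := Finset.univ.filter fun v => η.1 *ᵥ v = 0

theorem card_KR (η : altG F I) : (KR η).card = Nat.card (kr η) := by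
  classical
  rw [KR, Nat.card_eq_fintype_card]
  rw [← Fintype.card_subtype]
  exact Fintype.card_congr (Equiv.subtypeEquivRight fun v => mem_kr.symm)

open Classical in
theorem point (hI : Even (Fintype.card I)) (L : C →ₗ[F] altG F I) (η : altG F I) (x : I → F) :
    ((Nat.card F : ℚ) ^ 4 - (Nat.card F : ℚ) ^ 2) * ∑ y ∈ YY L x, J η x * J η y ≤
      ((Nat.card F : ℚ) ^ 4 - (Nat.card F : ℚ) ^ 2) * ((Nat.card F : ℚ) ^ 2 - Nat.card F) *
        (if smp L η x then 1 else 0) +
      ∑ y ∈ YY L x, ∑ z ∈ ZZ x y, J η x * J η y * J η z := by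
  have hq1 : 1 < Nat.card F := one_lt_q
  have hq : (1 : ℚ) < Nat.card F := by exact_mod_cast hq1
  have hc1 : (0 : ℚ) ≤ (Nat.card F : ℚ) ^ 4 - (Nat.card F : ℚ) ^ 2 := by nlinarith [sq_nonneg ((Nat.card F : ℚ) ^ 2 - 1)]
  have hc2 : (0 : ℚ) ≤ (Nat.card F : ℚ) ^ 2 - Nat.card F := by nlinarith
  have ht3 : 0 ≤ ∑ y ∈ YY L x, ∑ z ∈ ZZ x y, J η x * J η y * J η z :=
    Finset.sum_nonneg fun y _ => Finset.sum_nonneg fun z _ =>
      mul_nonneg (mul_nonneg (J_nonneg _ _) (J_nonneg _ _)) (J_nonneg _ _)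
  have hS : (0 : ℚ) ≤ if smp L η x then 1 else 0 := by split_ifs <;> norm_num
  by_cases hx : η.1 *ᵥ x = 0
  swap
  · have h0 : ∑ y ∈ YY L x, J η x * J η y = 0 := Finset.sum_eq_zero fun y _ => by rw [J_neg hx, zero_mul]
    rw [h0, mul_zero]
    exact add_nonneg (mul_nonneg (mul_nonneg hc1 hc2) hS) ht3
  by_cases hex : ∃ y, η.1 *ᵥ y = 0 ∧ pr L x y
  swap
  · have h0 : ∑ y ∈ YY L x, J η x * J η y = 0 := by
      refine Finset.sum_eq_zero fun y hy => ?_
      rw [YY, Finset.mem_filter] at hy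
      rw [J_neg (fun h => hex ⟨y, h, hy.2⟩), mul_zero]
    rw [h0, mul_zero]
    exact add_nonneg (mul_nonneg (mul_nonneg hc1 hc2) hS) ht3
  obtain ⟨y0, hy0, hp0⟩ := hex
  obtain ⟨hx0, hxy0⟩ := pr_indep hp0
  have hsum : ∑ y ∈ YY L x, J η x * J η y = ((YY L x).filter fun y => η.1 *ᵥ y = 0).card := by
    rw [← Finset.sum_boole]
    refine Finset.sum_congr rfl fun y _ => ?_
    rw [J_pos hx, one_mul]
    by_cases h : η.1 *ᵥ y = 0
    · rw [J_pos h, if_pos h]
    · rw [J_neg h, if_neg h]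
  rcases card_kr_or hI η x y0 hx hy0 hx0 hxy0 with hk | hk
  · -- simple
    have hs : smp L η x := ⟨hx, ⟨y0, hy0, hp0⟩, hk⟩
    rw [if_pos hs, mul_one]
    have h1 : ((YY L x).filter fun y => η.1 *ᵥ y = 0).card ≤ Nat.card F ^ 2 - Nat.card F := by
      have h2 : ((YY L x).filter fun y => η.1 *ᵥ y = 0) ⊆ KR η \ (Finset.univ.image fun t : F => t • x) := by
        intro y hy
        rw [Finset.mem_filter, YY, Finset.mem_filter] at hy
        rw [Finset.mem_sdiff, KR, Finset.mem_filter]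
        refine ⟨⟨Finset.mem_univ _, hy.2⟩, fun h => ?_⟩
        obtain ⟨t, _, ht⟩ := Finset.mem_image.1 h
        exact (pr_indep hy.1.2).2 t ht.symm
      have h3 := Finset.card_le_card h2
      rw [Finset.card_sdiff_of_subset, Finset.card_image_of_injective _ (smul_left_injective F hx0), card_KR, hk,
        Finset.card_univ, ← Nat.card_eq_fintype_card] at h3
      · exact h3
      · intro v hv
        obtain ⟨t, _, rfl⟩ := Finset.mem_image.1 hv
        rw [KR, Finset.mem_filter]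
        exact ⟨Finset.mem_univ _, by rw [Matrix.mulVec_smul, hx, smul_zero]⟩
    have h4 : (((YY L x).filter fun y => η.1 *ᵥ y = 0).card : ℚ) ≤ (Nat.card F : ℚ) ^ 2 - Nat.card F := by
      have := Nat.cast_le (α := ℚ).2 h1
      rwa [Nat.cast_sub (by nlinarith), Nat.cast_pow] at this
    rw [hsum]
    exact (mul_le_mul_of_nonneg_left h4 hc1).trans (le_add_of_nonneg_right ht3)
  · -- large kernel
    have h5 : ((Nat.card F : ℚ) ^ 4 - (Nat.card F : ℚ) ^ 2) * ∑ y ∈ YY L x, J η x * J η y ≤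
        ∑ y ∈ YY L x, ∑ z ∈ ZZ x y, J η x * J η y * J η z := by
      rw [Finset.mul_sum]
      refine Finset.sum_le_sum fun y hy => ?_
      rw [YY, Finset.mem_filter] at hy
      by_cases h : η.1 *ᵥ y = 0
      · rw [J_pos hx, J_pos h, one_mul, mul_one]
        have h6 : ∑ z ∈ ZZ x y, 1 * J η z = ((ZZ x y).filter fun z => η.1 *ᵥ z = 0).card := by
          rw [← Finset.sum_boole]
          refine Finset.sum_congr rfl fun z _ => ?_
          rw [one_mul]
          by_cases h' : η.1 *ᵥ z = 0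
          · rw [J_pos h', if_pos h']
          · rw [J_neg h', if_neg h']
        rw [h6]
        have h7 : KR η \ (Finset.univ.image fun p : F × F => p.1 • x + p.2 • y) ⊆
            ((ZZ x y).filter fun z => η.1 *ᵥ z = 0) := by
          intro z hz
          rw [Finset.mem_sdiff, KR, Finset.mem_filter] at hz
          rw [Finset.mem_filter, ZZ, Finset.mem_filter]
          refine ⟨⟨Finset.mem_univ _, fun s t hst => hz.2 (Finset.mem_image.2 ⟨(s, t), Finset.mem_univ _, hst.symm⟩)⟩,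
            hz.1.2⟩
        have h8 := Finset.card_le_card h7
        have h9 := Finset.le_card_sdiff (Finset.univ.image fun p : F × F => p.1 • x + p.2 • y) (KR η)
        have h10 : (Finset.univ.image fun p : F × F => p.1 • x + p.2 • y).card ≤ Nat.card F ^ 2 := by
          refine Finset.card_image_le.trans ?_
          rw [Finset.card_univ, Fintype.card_prod, Nat.card_eq_fintype_card, sq]
        rw [card_KR] at h9
        have h11 : Nat.card F ^ 4 - Nat.card F ^ 2 ≤ ((ZZ x y).filter fun z => η.1 *ᵥ z = 0).card := by omega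
        have h12 := Nat.cast_le (α := ℚ).2 h11
        rwa [Nat.cast_sub (Nat.pow_le_pow_right (by omega) (by omega)), Nat.cast_pow, Nat.cast_pow] at h12
      · rw [J_neg h, mul_zero, mul_zero]
        exact Finset.sum_nonneg fun z _ => by rw [zero_mul]
    exact h5.trans (le_add_of_nonneg_left (mul_nonneg (mul_nonneg hc1 hc2) hS))

theorem sum_J2 (x y : I → F) : ∑ η : altG F I, J η x * J η y = Nat.card (K2 (F := F) x y) := by
  classical
  have h1 : ∑ η : altG F I, J η x * J η y =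
      ((Finset.univ.filter fun η : altG F I => η.1 *ᵥ x = 0 ∧ η.1 *ᵥ y = 0).card : ℚ) := by
    rw [← Finset.sum_boole]
    refine Finset.sum_congr rfl fun η _ => ?_
    by_cases ha : η.1 *ᵥ x = 0
    · by_cases hb : η.1 *ᵥ y = 0
      · rw [J_pos ha, J_pos hb, if_pos ⟨ha, hb⟩, mul_one]
      · rw [J_pos ha, J_neg hb, if_neg (fun h => hb h.2), mul_zero]
    · rw [J_neg ha, zero_mul, if_neg (fun h => ha h.1)]
  rw [h1, ← Fintype.card_subtype, ← Nat.card_eq_fintype_card]
  congr 1
  exact Nat.card_congr (Equiv.subtypeEquivRight fun η => mem_K2.symm)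

theorem sum_J3 (x y z : I → F) : ∑ η : altG F I, J η x * J η y * J η z = Nat.card (K3 (F := F) x y z) := by
  classical
  have h1 : ∑ η : altG F I, J η x * J η y * J η z =
      ((Finset.univ.filter fun η : altG F I => (η.1 *ᵥ x = 0 ∧ η.1 *ᵥ y = 0) ∧ η.1 *ᵥ z = 0).card : ℚ) := by
    rw [← Finset.sum_boole]
    refine Finset.sum_congr rfl fun η _ => ?_
    by_cases ha : η.1 *ᵥ x = 0
    · by_cases hb : η.1 *ᵥ y = 0
      · by_cases hc : η.1 *ᵥ z = 0
        · rw [J_pos ha, J_pos hb, J_pos hc, if_pos ⟨⟨ha, hb⟩, hc⟩, mul_one, mul_one]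
        · rw [J_pos ha, J_pos hb, J_neg hc, if_neg (fun h => hc h.2), mul_zero]
      · rw [J_pos ha, J_neg hb, if_neg (fun h => hb h.1.2), mul_zero, zero_mul]
    · rw [J_neg ha, zero_mul, zero_mul, if_neg (fun h => ha h.1.1)]
  rw [h1, ← Fintype.card_subtype, ← Nat.card_eq_fintype_card]
  congr 1
  exact Nat.card_congr (Equiv.subtypeEquivRight fun η => mem_K3.symm)

open Classical in
/-- the number of vectors paired with a good vector -/
theorem card_YY (L : C →ₗ[F] altG F I) (x : I → F) (hx : goodv L x) :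
    ((Nat.card C : ℚ) - 1) * (Nat.card F : ℚ) ^ Fintype.card I ≤ Nat.card C * (YY L x).card := by
  have h1 := dl_sum L x hx
  have hq1 : 1 < Nat.card F := one_lt_q
  have hq : (1 : ℚ) < Nat.card F := by exact_mod_cast hq1
  rw [← Finset.sum_filter_add_sum_filter_not (Finset.univ : Finset (I → F)) (fun y => pr L x y)] at h1
  have h2 : ∑ y ∈ Finset.univ.filter (fun y => ¬ pr L x y), (dl L x y : ℚ) =
      ((Finset.univ.filter (fun y => ¬ pr L x y)).card : ℚ) * Nat.card C := by
    rw [← nsmul_eq_mul, ← Finset.sum_const]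
    refine Finset.sum_congr rfl fun y hy => ?_
    rw [Finset.mem_filter, pr] at hy
    push Not at hy
    rw [dl]
    congr 1
    exact Nat.card_congr (Equiv.subtypeUnivEquiv fun d => hy.2 d)
  have h3 : ((YY L x).card : ℚ) * Nat.card C ≤ Nat.card F * ∑ y ∈ Finset.univ.filter (fun y => pr L x y), (dl L x y : ℚ) := by
    rw [Finset.mul_sum, ← nsmul_eq_mul]
    refine Finset.card_nsmul_le_sum _ _ _ fun y _ => ?_
    exact_mod_cast dl_ge L x y
  have h4 : ((YY L x).card : ℚ) + ((Finset.univ.filter (fun y => ¬ pr L x y)).card : ℚ) =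
      (Nat.card F : ℚ) ^ Fintype.card I := by
    have := Finset.card_filter_add_card_filter_not (s := (Finset.univ : Finset (I → F))) (fun y => pr L x y)
    rw [Finset.card_univ, Fintype.card_fun, ← Nat.card_eq_fintype_card (α := F)] at this
    exact_mod_cast this
  rw [h2] at h1
  set N := ((Finset.univ.filter (fun y => ¬ pr L x y)).card : ℚ)
  set P := ((YY L x).card : ℚ)
  set S := ∑ y ∈ Finset.univ.filter (fun y => pr L x y), (dl L x y : ℚ)
  set R := (Nat.card C : ℚ)
  set q := (Nat.card F : ℚ)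
  rw [← h4] at h1 ⊢
  -- q (S + N R) = q (P+N) + (R-1)(P+N), q S >= P R
  have h5 : (q - 1) * (N * R) ≤ (q - 1) * (P + N) := by nlinarith
  have h6 := le_of_mul_le_mul_left h5 (by linarith)
  nlinarith

open Classical in
/-- **first moment** -/
theorem card_smp (hI : Even (Fintype.card I)) (L : C →ₗ[F] altG F I) (x : I → F) (hx : goodv L x) :
    ((Nat.card F : ℚ) ^ 2 - Nat.card F - 1) * ((Nat.card C : ℚ) - 1) * Nat.card (altG F I) * (Nat.card F : ℚ) ^ 2 ≤
      ((Nat.card F : ℚ) ^ 2 - 1) * (Nat.card F - 1) * Nat.card C * (Nat.card F : ℚ) ^ Fintype.card I *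
        (Finset.univ.filter fun η : altG F I => smp L η x).card := by
  have hq1 : 1 < Nat.card F := one_lt_q
  have hq : (1 : ℚ) < Nat.card F := by exact_mod_cast hq1
  have hR : (0 : ℚ) < Nat.card C := Nat.cast_pos.2 Nat.card_pos
  have hM : (0 : ℚ) < Nat.card (altG F I) := Nat.cast_pos.2 Nat.card_pos
  have hYc := card_YY L x hx
  set T : ℚ := ∑ y ∈ YY L x, (Nat.card (K2 (F := F) x y) : ℚ) with hT
  have h1 := Finset.sum_le_sum (s := (Finset.univ : Finset (altG F I))) fun η _ => point hI L η x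
  rw [← Finset.mul_sum, Finset.sum_comm, Finset.sum_add_distrib, ← Finset.mul_sum, Finset.sum_boole] at h1
  have h2 : ∑ y ∈ YY L x, ∑ η : altG F I, J η x * J η y = T := Finset.sum_congr rfl fun y _ => sum_J2 x y
  rw [h2] at h1
  have h3 : ∑ η : altG F I, ∑ y ∈ YY L x, ∑ z ∈ ZZ x y, J η x * J η y * J η z ≤ (Nat.card F : ℚ) ^ 3 * T := by
    rw [Finset.sum_comm, hT, Finset.mul_sum]
    refine Finset.sum_le_sum fun y hy => ?_
    rw [YY, Finset.mem_filter] at hy
    obtain ⟨hx0, hxy⟩ := pr_indep hy.2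
    rw [Finset.sum_comm]
    have hYp : (0 : ℚ) < (Nat.card F : ℚ) ^ Fintype.card I := by positivity
    have h4 : ∀ z ∈ ZZ x y, ∑ η : altG F I, J η x * J η y * J η z ≤
        (Nat.card F : ℚ) ^ 3 * Nat.card (K2 (F := F) x y) / (Nat.card F : ℚ) ^ Fintype.card I := by
      intro z hz
      rw [ZZ, Finset.mem_filter] at hz
      rw [sum_J3, le_div_iff₀ hYp, mul_comm ((Nat.card F : ℚ) ^ 3)]
      exact_mod_cast card_K3_le hx0 hxy hz.2
    refine (Finset.sum_le_card_nsmul _ _ _ h4).trans ?_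
    rw [nsmul_eq_mul]
    have h5 : ((ZZ x y).card : ℚ) ≤ (Nat.card F : ℚ) ^ Fintype.card I := by
      have := Finset.card_le_univ (ZZ (F := F) x y)
      rw [Fintype.card_fun, ← Nat.card_eq_fintype_card (α := F)] at this
      exact_mod_cast this
    rw [mul_div_assoc', div_le_iff₀ hYp, mul_comm ((ZZ x y).card : ℚ)]
    exact mul_le_mul_of_nonneg_left h5 (by positivity)
  have h6 : ((YY L x).card : ℚ) * (Nat.card (altG F I) * (Nat.card F : ℚ) ^ 3) ≤
      T * ((Nat.card F : ℚ) ^ Fintype.card I) ^ 2 := by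
    rw [hT, Finset.sum_mul, ← nsmul_eq_mul]
    refine Finset.card_nsmul_le_sum _ _ _ fun y hy => ?_
    rw [YY, Finset.mem_filter] at hy
    obtain ⟨hx0, hxy⟩ := pr_indep hy.2
    have h7 := card_K2_ge hx0 hxy
    rw [← pow_mul, mul_comm (Fintype.card I) 2]
    exact_mod_cast h7
  set q : ℚ := (Nat.card F : ℚ) with hqd
  set R : ℚ := (Nat.card C : ℚ) with hRd
  set M : ℚ := (Nat.card (altG F I) : ℚ) with hMd
  set Y : ℚ := q ^ Fintype.card I with hYd
  have hY : 0 < Y := by positivity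
  set S : ℚ := ((Finset.univ.filter fun η : altG F I => smp L η x).card : ℚ)
  set P : ℚ := ((YY L x).card : ℚ)
  -- T (q^2 - q - 1) <= (q^2-1)(q^2-q) S
  have h8 : q ^ 2 * ((q ^ 2 - q - 1) * T) ≤ q ^ 2 * ((q ^ 2 - 1) * (q ^ 2 - q) * S) := by nlinarith
  have h9 : (q ^ 2 - q - 1) * T ≤ (q ^ 2 - 1) * (q ^ 2 - q) * S := le_of_mul_le_mul_left h8 (by positivity)
  have hq2 : 0 ≤ q ^ 2 - q - 1 := by
    have : (2 : ℚ) ≤ q := by
      rw [hqd]; exact_mod_cast hq1
    nlinarith
  have h10 : q * Y * ((q ^ 2 - q - 1) * (R - 1) * M * q ^ 2) ≤ q * Y * ((q ^ 2 - 1) * (q - 1) * R * Y * S) := by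
    calc q * Y * ((q ^ 2 - q - 1) * (R - 1) * M * q ^ 2)
        = (q ^ 2 - q - 1) * (M * q ^ 3) * ((R - 1) * Y) := by ring
      _ ≤ (q ^ 2 - q - 1) * (M * q ^ 3) * (R * P) := mul_le_mul_of_nonneg_left hYc (by positivity)
      _ = (q ^ 2 - q - 1) * R * (P * (M * q ^ 3)) := by ring
      _ ≤ (q ^ 2 - q - 1) * R * (T * Y ^ 2) := mul_le_mul_of_nonneg_left h6 (by positivity)
      _ = R * Y ^ 2 * ((q ^ 2 - q - 1) * T) := by ring
      _ ≤ R * Y ^ 2 * ((q ^ 2 - 1) * (q ^ 2 - q) * S) := mul_le_mul_of_nonneg_left h9 (by positivity)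
      _ = _ := by ring
  exact le_of_mul_le_mul_left h10 (by positivity)

end

end Pool.Agent.Q46.PX
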