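import Mathlib
import Pool.Agent.Q46.PX.B

/-! Simple kernel vectors: second moment. -/

set_option autoImplicit false
set_option linter.all false

open Matrix

namespace Pool.Agent.Q46.PX

open Pool.Agent.Y109.PI Pool.Agent.Q46.PIdx

section

variable {F : Type*} [Field F] [Fintype F] {I : Type*} [Fintype I] [DecidableEq I]
  {C : Type*} [AddCommGroup C] [Module F C] [Fintype C]

open Classical in
noncomputable def f1 (L : C →ₗ[F] altG F I) (ω : altG F I) (p : C × (I → F)) : ℚ :=
  if smp L (ω + L p.1) p.2 then 1 else 0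

theorem f1_nonneg (L : C →ₗ[F] altG F I) (ω : altG F I) (p : C × (I → F)) : 0 ≤ f1 L ω p := by
  unfold f1; split_ifs <;> norm_num

theorem f1_le (L : C →ₗ[F] altG F I) (ω : altG F I) (p : C × (I → F)) : f1 L ω p ≤ fi L ω p := by
  by_cases h : smp L (ω + L p.1) p.2
  · have h1 : f1 L ω p = 1 := if_pos h
    have h2 : fi L ω p = 1 := if_pos h.1
    rw [h1, h2]
  · have h1 : f1 L ω p = 0 := if_neg h
    rw [h1]; exact fi_nonneg L ω p

open Classical in
theorem sum_f1 (L : C →ₗ[F] altG F I) (c : C) (x : I → F) :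
    ∑ ω, f1 L ω (c, x) = ((Finset.univ.filter fun η : altG F I => smp L η x).card : ℚ) := by
  rw [← Finset.sum_boole]
  exact Fintype.sum_equiv (Equiv.addRight (L c)) _ _ fun ω => rfl

open Classical in
/-- **second moment** -/
theorem second [Nontrivial C] (hI : Even (Fintype.card I)) (L : C →ₗ[F] altG F I) (D : ℚ) (hD0 : 0 ≤ D)
    (hA : 0 < (Finset.univ.filter (fun y : I → F => goodv L y)).card)
    (hR : Nat.card F ≤ Nat.card C)
    (hD : ∀ x : I → F, goodv L x → ∑ y ∈ Finset.univ.filter (fun y : I → F => goodv L y ∧ ∀ t : F, y ≠ t • x),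
      ((dl L x y : ℚ) - 1) ≤ D) (κ : ℚ)
    (hκ : κ * (((Nat.card F : ℚ) ^ 2 - 1) * (Nat.card F - 1) * Nat.card C) =
      ((Nat.card F : ℚ) ^ 2 - Nat.card F - 1) * ((Nat.card C : ℚ) - 1) * Nat.card F) :
    (Nat.card C : ℚ) * (Finset.univ.filter (fun y : I → F => goodv L y)).card * κ ^ 2 * Nat.card (altG F I) *
        Nat.card F ≤
      (Finset.univ.filter fun ω : altG F I => ∃ (c : C) (x : I → F), smp L (ω + L c) x).card *
        (((Nat.card F : ℚ) ^ 2 - 1) * κ * (Nat.card F : ℚ) ^ Fintype.card I + (Nat.card F : ℚ) ^ 2 * D) := by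
  have hq1 : 1 < Nat.card F := one_lt_q
  have hqq : (2 : ℚ) ≤ Nat.card F := by exact_mod_cast hq1
  have hRR : (Nat.card F : ℚ) ≤ Nat.card C := by exact_mod_cast hR
  have hM : (0 : ℚ) < Nat.card (altG F I) := Nat.cast_pos.2 Nat.card_pos
  have hA' : (0 : ℚ) < ((Finset.univ.filter (fun y : I → F => goodv L y)).card : ℚ) := Nat.cast_pos.2 hA
  set XX := Finset.univ.filter (fun y : I → F => goodv L y) with hXX
  set GG := Finset.univ.filter (fun ω : altG F I => ∃ (c : C) (x : I → F), smp L (ω + L c) x) with hGG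
  have hsm : ∀ x ∈ XX, ((Nat.card F : ℚ) ^ 2 - Nat.card F - 1) * ((Nat.card C : ℚ) - 1) * Nat.card (altG F I) *
      (Nat.card F : ℚ) ^ 2 ≤ ((Nat.card F : ℚ) ^ 2 - 1) * (Nat.card F - 1) * Nat.card C *
        (Nat.card F : ℚ) ^ Fintype.card I * (Finset.univ.filter fun η : altG F I => smp L η x).card := by
    intro x hx
    rw [hXX, Finset.mem_filter] at hx
    exact card_smp hI L x hx.2
  set q : ℚ := (Nat.card F : ℚ) with hqd
  set R : ℚ := (Nat.card C : ℚ) with hRd
  set M : ℚ := (Nat.card (altG F I) : ℚ) with hMd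
  set Y : ℚ := q ^ Fintype.card I with hYd
  have hq : 0 < q := by linarith
  have hRp : 0 < R := by linarith
  have hY : 0 < Y := by positivity
  have hq2 : 0 < q ^ 2 - 1 := by nlinarith
  have hq3 : 0 < q ^ 2 - q - 1 := by nlinarith
  have hκ0 : 0 < κ := by
    have h1 : 0 < κ * ((q ^ 2 - 1) * (q - 1) * R) := by
      rw [hκ]
      exact mul_pos (mul_pos hq3 (by linarith)) hq
    exact pos_of_mul_pos_left h1 (mul_nonneg (mul_nonneg hq2.le (by linarith)) hRp.le)
  -- lower bound for the number of simple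
  have hsm' : ∀ x ∈ XX, κ * M * q / Y ≤ ((Finset.univ.filter fun η : altG F I => smp L η x).card : ℚ) := by
    intro x hx
    rw [div_le_iff₀ hY]
    have h1 := hsm x hx
    have h2 : ((q ^ 2 - 1) * (q - 1) * R) * (κ * M * q) ≤
        ((q ^ 2 - 1) * (q - 1) * R) * (((Finset.univ.filter fun η : altG F I => smp L η x).card : ℚ) * Y) := by
      calc ((q ^ 2 - 1) * (q - 1) * R) * (κ * M * q) = (κ * ((q ^ 2 - 1) * (q - 1) * R)) * (M * q) := by ring
        _ = (q ^ 2 - q - 1) * (R - 1) * M * q ^ 2 := by rw [hκ]; ring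
        _ ≤ _ := h1
        _ = _ := by ring
    exact le_of_mul_le_mul_left h2 (mul_pos (mul_pos hq2 (by linarith)) hRp)
  let X : altG F I → ℚ := fun ω => ∑ c : C, ∑ x ∈ XX, f1 L ω (c, x)
  set S1 : ℚ := ∑ ω, X ω with hS1d
  have hS1e : S1 = R * ∑ x ∈ XX, ((Finset.univ.filter fun η : altG F I => smp L η x).card : ℚ) := by
    rw [hS1d]
    simp only [X]
    rw [Finset.sum_comm]
    have h1 : ∀ c : C, ∑ ω, ∑ x ∈ XX, f1 L ω (c, x) =
        ∑ x ∈ XX, ((Finset.univ.filter fun η : altG F I => smp L η x).card : ℚ) := by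
      intro c
      rw [Finset.sum_comm]
      exact Finset.sum_congr rfl fun x _ => sum_f1 L c x
    simp only [h1]
    rw [Finset.sum_const, Finset.card_univ, nsmul_eq_mul, hRd, Nat.card_eq_fintype_card]
  set s0 : ℚ := R * (XX.card * (κ * M * q / Y)) with hs0d
  have hs0 : s0 ≤ S1 := by
    rw [hS1e, hs0d]
    refine mul_le_mul_of_nonneg_left ?_ hRp.le
    rw [← nsmul_eq_mul]
    exact Finset.card_nsmul_le_sum _ _ _ hsm'
  have hs0p : 0 < s0 := by positivity
  -- the second moment
  have hpair : ∀ c : C, ∀ x ∈ XX, ∑ y ∈ XX, ∑ c' : C, ∑ ω, f1 L ω (c, x) * f1 L ω (c', y) ≤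
      (q ^ 2 - 1) * ((Finset.univ.filter fun η : altG F I => smp L η x).card : ℚ) + M * q ^ 3 / Y ^ 2 * D := by
    intro c x hx
    have hx' := hx
    rw [hXX, Finset.mem_filter] at hx'
    have hxg := hx'.2
    have hx0 : x ≠ 0 := fun h => not_goodv_zero L (h ▸ hxg)
    have h1 : ∀ y ∈ XX, ∑ c' : C, ∑ ω, f1 L ω (c, x) * f1 L ω (c', y) =
        ∑ ω, f1 L ω (c, x) * f1 L ω (c, y) + ∑ c' ∈ Finset.univ.erase c, ∑ ω, f1 L ω (c, x) * f1 L ω (c', y) := by
      intro y _
      exact (Finset.add_sum_erase Finset.univ (fun c' => ∑ ω, f1 L ω (c, x) * f1 L ω (c', y)) (Finset.mem_univ c)).symm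
    rw [Finset.sum_congr rfl h1, Finset.sum_add_distrib]
    refine add_le_add ?_ ?_
    · -- the same parameter
      rw [Finset.sum_comm, ← sum_f1 L c x, Finset.mul_sum]
      refine Finset.sum_le_sum fun ω _ => ?_
      rw [← Finset.mul_sum, mul_comm]
      by_cases hs : smp L (ω + L c) x
      · refine mul_le_mul_of_nonneg_right ?_ (f1_nonneg L ω _)
        have h2 : ∑ y ∈ XX, f1 L ω (c, y) ≤ (((KR (ω + L c)).erase 0).card : ℚ) := by
          have h3 : ∀ y ∈ XX, f1 L ω (c, y) ≤ if y ∈ (KR (ω + L c)).erase 0 then (1 : ℚ) else 0 := by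
            intro y hy
            rw [hXX, Finset.mem_filter] at hy
            by_cases hsy : smp L (ω + L c) y
            · rw [if_pos]
              · have e1 : f1 L ω (c, y) = 1 := if_pos hsy
                rw [e1]
              · rw [Finset.mem_erase, KR, Finset.mem_filter]
                exact ⟨fun h => not_goodv_zero L (h ▸ hy.2), Finset.mem_univ _, hsy.1⟩
            · have e1 : f1 L ω (c, y) = 0 := if_neg hsy
              rw [e1]; split_ifs <;> norm_num
          refine (Finset.sum_le_sum h3).trans ?_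
          rw [Finset.sum_boole]
          refine Nat.cast_le.2 (Finset.card_le_card fun y hy => (Finset.mem_filter.1 hy).2)
        refine h2.trans ?_
        have h0 : (0 : I → F) ∈ KR (ω + L c) := by
          rw [KR, Finset.mem_filter]
          exact ⟨Finset.mem_univ _, Matrix.mulVec_zero _⟩
        rw [Finset.card_erase_of_mem h0, card_KR, hs.2.2, Nat.cast_sub (by nlinarith), Nat.cast_pow, Nat.cast_one]
      · have e1 : f1 L ω (c, x) = 0 := if_neg hs
        rw [e1, mul_zero, mul_zero]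
    · -- different parameters
      have h2 : ∀ y ∈ XX, ∑ c' ∈ Finset.univ.erase c, ∑ ω, f1 L ω (c, x) * f1 L ω (c', y) ≤
          if (∀ t : F, y ≠ t • x) then M * q ^ 3 / Y ^ 2 * ((dl L x y : ℚ) - 1) else 0 := by
        intro y hy
        rw [hXX, Finset.mem_filter] at hy
        by_cases hyx : ∀ t : F, y ≠ t • x
        · rw [if_pos hyx]
          have h3 := card_alt2 hx0 hyx
          have h4 : (Nat.card (LinearMap.ker ((ev (F := F) x).prod (ev y))) : ℚ) ≤ M * q ^ 3 / Y ^ 2 := by
            rw [le_div_iff₀ (by positivity), hYd, ← pow_mul, mul_comm (Fintype.card I) 2, hMd, hqd]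
            exact_mod_cast h3
          have h5 : ∀ c' ∈ Finset.univ.erase c, ∑ ω, f1 L ω (c, x) * f1 L ω (c', y) ≤
              if x ⬝ᵥ ((L (c - c')).1 *ᵥ y) = 0 then (Nat.card (LinearMap.ker ((ev (F := F) x).prod (ev y))) : ℚ)
              else 0 := by
            intro c' _
            refine le_trans (Finset.sum_le_sum fun ω _ => ?_) (sum_two L c c' x y)
            exact mul_le_mul (f1_le L ω _) (f1_le L ω _) (f1_nonneg L ω _) (fi_nonneg L ω _)
          refine (Finset.sum_le_sum h5).trans ?_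
          have h6 : ∑ c' ∈ Finset.univ.erase c, (if x ⬝ᵥ ((L (c - c')).1 *ᵥ y) = 0 then
              (Nat.card (LinearMap.ker ((ev (F := F) x).prod (ev y))) : ℚ) else 0) =
              (Nat.card (LinearMap.ker ((ev (F := F) x).prod (ev y))) : ℚ) * ((dl L x y : ℚ) - 1) := by
            have h7 : ∑ c' : C, (if x ⬝ᵥ ((L (c - c')).1 *ᵥ y) = 0 then
              (Nat.card (LinearMap.ker ((ev (F := F) x).prod (ev y))) : ℚ) else 0) =
              (Nat.card (LinearMap.ker ((ev (F := F) x).prod (ev y))) : ℚ) * (dl L x y : ℚ) := by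
              refine (Fintype.sum_equiv (Equiv.subLeft c) _ (fun d : C => if x ⬝ᵥ ((L d).1 *ᵥ y) = 0 then
                (Nat.card (LinearMap.ker ((ev (F := F) x).prod (ev y))) : ℚ) else 0) fun d => rfl).trans ?_
              rw [dl_eq, Finset.mul_sum]
              refine Finset.sum_congr rfl fun d _ => ?_
              rw [mul_ite, mul_one, mul_zero]
            rw [← Finset.add_sum_erase _ _ (Finset.mem_univ c), sub_self, map_zero, Submodule.coe_zero,
              Matrix.zero_mulVec, dotProduct_zero, if_pos rfl] at h7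
            linarith
          rw [h6]
          refine mul_le_mul_of_nonneg_right h4 ?_
          have : 1 ≤ dl L x y := by
            rw [dl]
            haveI : Nonempty {d : C // x ⬝ᵥ ((L d).1 *ᵥ y) = 0} := ⟨⟨0, by
              rw [map_zero, Submodule.coe_zero, Matrix.zero_mulVec, dotProduct_zero]⟩⟩
            exact Nat.card_pos
          have := Nat.cast_le (α := ℚ).2 this
          rw [Nat.cast_one] at this
          linarith
        · rw [if_neg hyx]
          push Not at hyx
          obtain ⟨t, rfl⟩ := hyx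
          have ht : t ≠ 0 := by
            rintro rfl
            exact not_goodv_zero L ((zero_smul F x) ▸ hy.2)
          refine le_of_eq (Finset.sum_eq_zero fun c' hc' => Finset.sum_eq_zero fun ω _ => ?_)
          by_cases ha : smp L (ω + L c) x
          · have hb : ¬ smp L (ω + L c') (t • x) := by
              intro hb
              have hb := hb.1
              rw [Matrix.mulVec_smul, smul_eq_zero] at hb
              have hb := hb.resolve_left ht
              apply (Finset.mem_erase.1 hc').1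
              have h6 : (L (c' - c)).1 *ᵥ x = 0 := by
                have e1 : (L (c' - c)).1 = (ω + L c').1 - (ω + L c).1 := by
                  rw [map_sub, Submodule.coe_sub, Submodule.coe_add, Submodule.coe_add]; abel
                rw [e1, Matrix.sub_mulVec, hb, ha.1, sub_zero]
              exact sub_eq_zero.1 (hxg _ h6)
            have e2 : f1 L ω (c', t • x) = 0 := if_neg hb
            rw [e2, mul_zero]
          · have e2 : f1 L ω (c, x) = 0 := if_neg ha
            rw [e2, zero_mul]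
      refine (Finset.sum_le_sum h2).trans ?_
      rw [← Finset.sum_filter, hXX, Finset.filter_filter, ← Finset.mul_sum]
      exact mul_le_mul_of_nonneg_left (hD x hxg) (by positivity)
  set OFF : ℚ := R * (XX.card * (M * q ^ 3 / Y ^ 2 * D)) with hOFF
  have hS2 : ∑ ω, X ω ^ 2 ≤ (q ^ 2 - 1) * S1 + OFF := by
    have h1 : ∀ ω, X ω ^ 2 = ∑ c : C, ∑ x ∈ XX, ∑ y ∈ XX, ∑ c' : C, f1 L ω (c, x) * f1 L ω (c', y) := by
      intro ω
      simp only [X]
      rw [sq, Finset.sum_mul]
      refine Finset.sum_congr rfl fun c _ => ?_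
      rw [Finset.sum_mul]
      refine Finset.sum_congr rfl fun x _ => ?_
      rw [Finset.mul_sum, Finset.sum_comm]
      refine Finset.sum_congr rfl fun c' _ => ?_
      rw [Finset.mul_sum]
    have h2 : ∑ ω, X ω ^ 2 = ∑ c : C, ∑ x ∈ XX, ∑ y ∈ XX, ∑ c' : C, ∑ ω, f1 L ω (c, x) * f1 L ω (c', y) := by
      simp only [h1]
      rw [Finset.sum_comm]
      refine Finset.sum_congr rfl fun c _ => ?_
      rw [Finset.sum_comm]
      refine Finset.sum_congr rfl fun x _ => ?_
      rw [Finset.sum_comm]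
      refine Finset.sum_congr rfl fun y _ => ?_
      rw [Finset.sum_comm]
    rw [h2]
    refine (Finset.sum_le_sum fun c _ => Finset.sum_le_sum fun x hx => hpair c x hx).trans (le_of_eq ?_)
    rw [Finset.sum_const, Finset.card_univ, nsmul_eq_mul, Finset.sum_add_distrib, ← Finset.mul_sum,
      Finset.sum_const, nsmul_eq_mul, ← Nat.card_eq_fintype_card, ← hRd, hS1e, hOFF]
    ring
  have hzero : ∀ ω, ω ∉ GG → X ω = 0 := by
    intro ω hω
    refine Finset.sum_eq_zero fun c _ => Finset.sum_eq_zero fun x hx => ?_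
    refine if_neg fun h => hω ?_
    rw [hGG, Finset.mem_filter]
    exact ⟨Finset.mem_univ _, c, x, h⟩
  have hCS : S1 ^ 2 ≤ GG.card * ((q ^ 2 - 1) * S1 + OFF) := by
    have h1 : S1 = ∑ ω ∈ GG, X ω := by
      symm
      exact Finset.sum_subset (Finset.subset_univ _) fun ω _ h => hzero ω h
    have h2 : ∑ ω ∈ GG, X ω ^ 2 ≤ ∑ ω, X ω ^ 2 :=
      Finset.sum_le_sum_of_subset_of_nonneg (Finset.subset_univ _) fun _ _ _ => sq_nonneg _
    calc S1 ^ 2 = (∑ ω ∈ GG, X ω) ^ 2 := by rw [h1]
      _ ≤ GG.card * ∑ ω ∈ GG, X ω ^ 2 := sq_sum_le_card_mul_sum_sq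
      _ ≤ GG.card * ∑ ω, X ω ^ 2 := mul_le_mul_of_nonneg_left h2 (Nat.cast_nonneg _)
      _ ≤ _ := mul_le_mul_of_nonneg_left hS2 (Nat.cast_nonneg _)
  have hOFF0 : 0 ≤ OFF := by positivity
  have hS1p : 0 < S1 := by linarith
  have hd1 : 0 < (q ^ 2 - 1) * S1 + OFF := by positivity
  have h3 : s0 ^ 2 * ((q ^ 2 - 1) * S1 + OFF) ≤ S1 ^ 2 * ((q ^ 2 - 1) * s0 + OFF) := by
    have h4 : s0 ^ 2 ≤ S1 ^ 2 := pow_le_pow_left₀ hs0p.le hs0 2
    have h5 : s0 ^ 2 * S1 ≤ S1 ^ 2 * s0 := by nlinarith [mul_pos hs0p hS1p]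
    nlinarith
  have h4 : ((q ^ 2 - 1) * S1 + OFF) * s0 ^ 2 ≤ ((q ^ 2 - 1) * S1 + OFF) * (GG.card * ((q ^ 2 - 1) * s0 + OFF)) := by
    have h5 : 0 ≤ (q ^ 2 - 1) * s0 + OFF := by positivity
    calc ((q ^ 2 - 1) * S1 + OFF) * s0 ^ 2 = s0 ^ 2 * ((q ^ 2 - 1) * S1 + OFF) := mul_comm _ _
      _ ≤ S1 ^ 2 * ((q ^ 2 - 1) * s0 + OFF) := h3
      _ ≤ (GG.card * ((q ^ 2 - 1) * S1 + OFF)) * ((q ^ 2 - 1) * s0 + OFF) := mul_le_mul_of_nonneg_right hCS h5
      _ = _ := by ring
  have h5 := le_of_mul_le_mul_left h4 hd1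
  -- simplify
  have h6 : s0 ^ 2 = (R * XX.card * (M * q / Y ^ 2)) * (R * XX.card * κ ^ 2 * M * q) := by
    rw [hs0d]; field_simp
  have h7 : GG.card * ((q ^ 2 - 1) * s0 + OFF) = (R * XX.card * (M * q / Y ^ 2)) *
      (GG.card * ((q ^ 2 - 1) * κ * Y + q ^ 2 * D)) := by
    rw [hs0d, hOFF]; field_simp
  rw [h6, h7] at h5
  exact le_of_mul_le_mul_left h5 (by positivity)

end

end Pool.Agent.Q46.PX
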