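import Mathlib
import Pool.Agent.Q46.PX.C

/-! Simple kernel vectors: the two explicit bounds. -/

set_option autoImplicit false
set_option linter.all false

open Matrix

namespace Pool.Agent.Q46.PX

open Pool.Agent.Y109.PI Pool.Agent.Q46.PIdx

section

variable {F : Type*} [Field F] [Fintype F] {I : Type*} [Fintype I] [DecidableEq I]
  {C : Type*} [AddCommGroup C] [Module F C] [Fintype C]

/-- the matrices with a simple translate -/
def simM (L : C →ₗ[F] altG F I) : Set (altG F I) := {ω | ∃ (c : C) (x : I → F), smp L (ω + L c) x}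

open Classical in
theorem card_S1_ge [Nontrivial C] (L : C →ₗ[F] altG F I) (x : I → F) (hx : goodv L x) :
    ((Finset.univ.filter (fun y : I → F => goodv L y)).card : ℚ) - (Nat.card F - 1) ≤
      ((Finset.univ.filter (fun y : I → F => goodv L y ∧ ∀ t : F, y ≠ t • x)).card : ℚ) := by
  have h1 : Finset.univ.filter (fun y : I → F => goodv L y) ⊆
      Finset.univ.filter (fun y : I → F => goodv L y ∧ ∀ t : F, y ≠ t • x) ∪
        (Finset.univ.erase (0 : F)).image fun t => t • x := by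
    intro y hy
    rw [Finset.mem_filter] at hy
    rw [Finset.mem_union, Finset.mem_filter]
    by_cases h : ∀ t : F, y ≠ t • x
    · exact Or.inl ⟨Finset.mem_univ _, hy.2, h⟩
    · push Not at h
      obtain ⟨t, rfl⟩ := h
      right
      refine Finset.mem_image.2 ⟨t, Finset.mem_erase.2 ⟨?_, Finset.mem_univ _⟩, rfl⟩
      rintro rfl
      exact not_goodv_zero L ((zero_smul F x) ▸ hy.2)
  have h2 := (Finset.card_le_card h1).trans (Finset.card_union_le _ _)
  have h3 : ((Finset.univ.erase (0 : F)).image fun t => t • x).card ≤ Nat.card F - 1 := by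
    refine Finset.card_image_le.trans ?_
    rw [Finset.card_erase_of_mem (Finset.mem_univ _), Finset.card_univ, Nat.card_eq_fintype_card]
  have h4 := Nat.cast_le (α := ℚ).2 (h2.trans (Nat.add_le_add_left h3 _))
  rw [Nat.cast_add, Nat.cast_sub Nat.card_pos, Nat.cast_one] at h4
  linarith

open Classical in
theorem A_lt [Nontrivial C] (L : C →ₗ[F] altG F I) :
    ((Finset.univ.filter (fun y : I → F => goodv L y)).card : ℚ) ≤ (Nat.card F : ℚ) ^ Fintype.card I := by
  have h := Finset.card_le_univ (Finset.univ.filter (fun y : I → F => goodv L y))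
  rw [Fintype.card_fun, ← Nat.card_eq_fintype_card (α := F)] at h
  exact_mod_cast h

open Classical in
/-- the sum over the second vector for one relation -/
theorem D1 [Nontrivial C] (hC : Nat.card C = Nat.card F) (L : C →ₗ[F] altG F I) (x : I → F) (hx : goodv L x) :
    (Nat.card F : ℚ) * ∑ y ∈ Finset.univ.filter (fun y : I → F => goodv L y ∧ ∀ t : F, y ≠ t • x),
      ((dl L x y : ℚ) - 1) ≤
      Nat.card F * (Nat.card F - 1) * ((Finset.univ.filter (fun y : I → F => goodv L y)).card : ℚ) -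
        (Nat.card F - 1) ^ 2 * (Nat.card F : ℚ) ^ Fintype.card I := by
  have hx0 : x ≠ 0 := fun h => not_goodv_zero L (h ▸ hx)
  have hsum := dl_sum L x hx
  have hcS1 := card_S1_ge L x hx
  set S1 := Finset.univ.filter (fun y : I → F => goodv L y ∧ ∀ t : F, y ≠ t • x) with hS1
  set XX := Finset.univ.filter (fun y : I → F => goodv L y) with hXX
  let S2 : Finset (I → F) := Finset.univ.image fun t : F => t • x
  let S3 : Finset (I → F) := (Finset.univ \ XX).erase 0
  have h12 : Disjoint S1 S2 := by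
    rw [Finset.disjoint_left]
    intro y h1 h2
    rw [hS1, Finset.mem_filter] at h1
    obtain ⟨t, _, ht⟩ := Finset.mem_image.1 h2
    exact h1.2.2 t ht.symm
  have hS3m : ∀ y ∈ S3, ¬ goodv L y := by
    intro y h3 h
    rw [Finset.mem_erase, Finset.mem_sdiff, hXX, Finset.mem_filter] at h3
    exact h3.2.2 ⟨Finset.mem_univ _, h⟩
  have h123 : Disjoint (S1 ∪ S2) S3 := by
    rw [Finset.disjoint_left]
    intro y h1 h3
    have hy := hS3m y h3
    rcases Finset.mem_union.1 h1 with h1 | h1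
    · rw [hS1, Finset.mem_filter] at h1
      exact hy h1.2.1
    · obtain ⟨t, _, rfl⟩ := Finset.mem_image.1 h1
      refine hy (goodv_smul hx ?_)
      rintro rfl
      exact (Finset.mem_erase.1 h3).1 (zero_smul _ _)
  have hle : ∑ y ∈ S1, (dl L x y : ℚ) + ∑ y ∈ S2, (dl L x y : ℚ) + ∑ y ∈ S3, (dl L x y : ℚ) ≤
      ∑ y : I → F, (dl L x y : ℚ) := by
    rw [← Finset.sum_union h12, ← Finset.sum_union h123]
    exact Finset.sum_le_sum_of_subset_of_nonneg (Finset.subset_univ _) fun _ _ _ => Nat.cast_nonneg _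
  have hq : (0 : ℚ) < Nat.card F := Nat.cast_pos.2 Nat.card_pos
  have hq1 : (1 : ℚ) < Nat.card F := by exact_mod_cast (one_lt_q (F := F))
  have h2 : ∑ y ∈ S2, (dl L x y : ℚ) = Nat.card F * Nat.card C := by
    rw [Finset.sum_image]
    · simp only [dl_self]
      rw [Finset.sum_const, Finset.card_univ, nsmul_eq_mul, Nat.card_eq_fintype_card (α := F)]
    · intro a _ b _ hab
      exact smul_left_injective F hx0 hab
  have hXle : XX.card + 1 ≤ Fintype.card (I → F) := by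
    have h5 : (insert (0 : I → F) XX).card = XX.card + 1 := by
      apply Finset.card_insert_of_notMem
      rw [hXX, Finset.mem_filter]
      exact fun h => not_goodv_zero L h.2
    rw [← h5]
    exact Finset.card_le_univ _
  have hS3 : (S3.card : ℚ) = (Nat.card F : ℚ) ^ Fintype.card I - XX.card - 1 := by
    have h4 : (0 : I → F) ∈ Finset.univ \ XX := by
      rw [Finset.mem_sdiff, hXX, Finset.mem_filter]
      exact ⟨Finset.mem_univ _, fun h => not_goodv_zero L h.2⟩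
    have h6 : (S3.card : ℚ) = ((Fintype.card (I → F) - XX.card - 1 : ℕ) : ℚ) := by
      congr 1
      rw [Finset.card_erase_of_mem h4, Finset.card_sdiff_of_subset (Finset.subset_univ _), Finset.card_univ]
    rw [h6, Nat.cast_sub (by omega), Nat.cast_sub (by omega), Fintype.card_fun, Nat.card_eq_fintype_card (α := F)]
    push_cast
    ring
  have h3 : ∑ y ∈ S3, (dl L x y : ℚ) = (S3.card : ℚ) * Nat.card C := by
    rw [← nsmul_eq_mul, ← Finset.sum_const]
    refine Finset.sum_congr rfl fun y hy => ?_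
    have hng := hS3m y hy
    rw [goodv] at hng
    push Not at hng
    obtain ⟨c, hc, hc0⟩ := hng
    have hsurj : Function.Surjective fun t : F => t • c := by
      refine ((Fintype.bijective_iff_injective_and_card _).2 ⟨smul_left_injective F hc0, ?_⟩).2
      rw [← Nat.card_eq_fintype_card, ← Nat.card_eq_fintype_card, hC]
    rw [dl]
    congr 1
    refine Nat.card_congr (Equiv.subtypeUnivEquiv fun d => ?_)
    obtain ⟨t, rfl⟩ := hsurj d
    simp only
    rw [map_smul, Submodule.coe_smul, Matrix.smul_mulVec, hc, smul_zero, dotProduct_zero]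
  have hS : ∑ y ∈ S1, ((dl L x y : ℚ) - 1) = ∑ y ∈ S1, (dl L x y : ℚ) - S1.card := by
    rw [Finset.sum_sub_distrib, Finset.sum_const, nsmul_eq_mul, mul_one]
  rw [hS]
  rw [h2, h3, hS3, hC] at hle
  rw [hC] at hsum
  set q : ℚ := (Nat.card F : ℚ)
  set Y : ℚ := q ^ Fintype.card I
  set A : ℚ := (XX.card : ℚ)
  set T : ℚ := ∑ y ∈ S1, (dl L x y : ℚ)
  have h4 : q * (T + q * q + (Y - A - 1) * q) ≤ q * ∑ y : I → F, (dl L x y : ℚ) :=
    mul_le_mul_of_nonneg_left hle hq.le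
  rw [hsum] at h4
  nlinarith [mul_nonneg hq.le (mul_nonneg (sub_nonneg.2 hq1.le) (sub_nonneg.2 hq1.le)), hcS1, mul_le_mul_of_nonneg_left hcS1 hq.le]

/-- **one relation** -/
theorem one [Nontrivial C] (hI : Even (Fintype.card I)) (hC : Nat.card C = Nat.card F) (L : C →ₗ[F] altG F I)
    (hL : Function.Injective L) :
    (Nat.card F : ℚ) ^ 2 * ((Nat.card F : ℚ) ^ 2 - Nat.card F - 1) ^ 2 * Nat.card (altG F I) ≤
      ((Nat.card F : ℚ) ^ 2 - 1) ^ 2 * (2 * (Nat.card F : ℚ) ^ 2 - 2 * Nat.card F - 1) * Nat.card (simM L) := by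
  classical
  have hq1 : 1 < Nat.card F := one_lt_q
  have hqq : (2 : ℚ) ≤ Nat.card F := by exact_mod_cast hq1
  have hG : Nat.card (simM L) = (Finset.univ.filter fun ω : altG F I => ∃ (c : C) (x : I → F),
      smp L (ω + L c) x).card := by
    rw [Nat.card_eq_fintype_card, ← Fintype.card_subtype]
    exact Fintype.card_congr (Equiv.refl _)
  have hA2 : Nat.card {x : I → F // goodv L x} = (Finset.univ.filter (fun y : I → F => goodv L y)).card := by
    rw [Nat.card_eq_fintype_card, Fintype.card_subtype]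
  have h1 := bad_vec L hL
  have h2 := card_good_add L
  rw [hC] at h1
  have h1' : Nat.card {x : I → F // ¬ goodv L x} * Nat.card F ^ 2 ≤ Nat.card F ^ Fintype.card I :=
    Nat.le_of_mul_le_mul_left h1 (by omega)
  have hb := A_lt L
  rw [hA2] at h2
  have hAge : (Nat.card F : ℚ) ^ Fintype.card I * ((Nat.card F : ℚ) ^ 2 - 1) ≤
      ((Finset.univ.filter (fun y : I → F => goodv L y)).card : ℚ) * (Nat.card F : ℚ) ^ 2 := by
    have e1 : (Nat.card {x : I → F // ¬ goodv L x} : ℚ) * (Nat.card F : ℚ) ^ 2 ≤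
        (Nat.card F : ℚ) ^ Fintype.card I := by exact_mod_cast h1'
    have e2 : ((Finset.univ.filter (fun y : I → F => goodv L y)).card : ℚ) +
        (Nat.card {x : I → F // ¬ goodv L x} : ℚ) = (Nat.card F : ℚ) ^ Fintype.card I := by exact_mod_cast h2
    nlinarith
  have hYp : (0 : ℚ) < (Nat.card F : ℚ) ^ Fintype.card I := by positivity
  have hAp : (0 : ℚ) < ((Finset.univ.filter (fun y : I → F => goodv L y)).card : ℚ) := by
    have : (0 : ℚ) < (Nat.card F : ℚ) ^ Fintype.card I * ((Nat.card F : ℚ) ^ 2 - 1) := mul_pos hYp (by nlinarith)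
    exact pos_of_mul_pos_left (this.trans_le hAge) (by positivity)
  have hA : 0 < (Finset.univ.filter (fun y : I → F => goodv L y)).card := by exact_mod_cast hAp
  rw [hG]
  set q : ℚ := (Nat.card F : ℚ) with hqd
  have hD1 := D1 hC L
  set Y : ℚ := q ^ Fintype.card I with hYd
  set A : ℚ := ((Finset.univ.filter (fun y : I → F => goodv L y)).card : ℚ) with hAd
  have hq2 : 0 < q ^ 2 - 1 := by nlinarith
  have hq0 : 0 < q := by linarith
  have hD0 : 0 ≤ (q * (q - 1) * A - (q - 1) ^ 2 * Y) / q := by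
    apply div_nonneg _ hq0.le
    -- q A >= (q-1) Y
    have e1 : q * ((q - 1) * Y) ≤ q * (q * A) := by nlinarith
    have e2 := le_of_mul_le_mul_left e1 hq0
    nlinarith
  have key := second hI L ((q * (q - 1) * A - (q - 1) ^ 2 * Y) / q) hD0 hA (by rw [hC]) (fun x hx => by
      rw [le_div_iff₀ hq0, mul_comm]
      exact hD1 x hx) ((q ^ 2 - q - 1) / (q ^ 2 - 1)) (by
      rw [hC, ← hqd]
      field_simp)
  rw [hC, ← hqd, ← hAd, ← hYd] at key
  set M : ℚ := (Nat.card (altG F I) : ℚ)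
  set G : ℚ := ((Finset.univ.filter fun ω : altG F I => ∃ (c : C) (x : I → F), smp L (ω + L c) x).card : ℚ)
  have hG0 : 0 ≤ G := Nat.cast_nonneg _
  have e3 : (q ^ 2 - 1) * ((q ^ 2 - q - 1) / (q ^ 2 - 1)) * Y + q ^ 2 * ((q * (q - 1) * A - (q - 1) ^ 2 * Y) / q) =
      (q ^ 2 - q - 1) * Y + q * (q * (q - 1) * A - (q - 1) ^ 2 * Y) := by
    field_simp
  rw [e3] at key
  have e4 : (q ^ 2 - q - 1) * Y + q * (q * (q - 1) * A - (q - 1) ^ 2 * Y) ≤ A * (2 * q ^ 2 - 2 * q - 1) := by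
    have e5 : 0 ≤ q ^ 3 - 3 * q ^ 2 + 2 * q + 1 := by nlinarith [mul_nonneg (sub_nonneg.2 hqq) (sq_nonneg (q - 1 / 2)), mul_nonneg (mul_nonneg (sub_nonneg.2 hqq) hq0.le) (by linarith : (0:ℚ) ≤ q - 1)]
    have e6 : 0 ≤ (Y - A) * (q ^ 3 - 3 * q ^ 2 + 2 * q + 1) := mul_nonneg (by linarith) e5
    nlinarith
  have e7 : q * A * ((q ^ 2 - q - 1) / (q ^ 2 - 1)) ^ 2 * M * q ≤ G * (A * (2 * q ^ 2 - 2 * q - 1)) :=
    key.trans (mul_le_mul_of_nonneg_left e4 hG0)
  have e8 : A * (q ^ 2 * ((q ^ 2 - q - 1) / (q ^ 2 - 1)) ^ 2 * M) ≤ A * ((2 * q ^ 2 - 2 * q - 1) * G) := by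
    nlinarith
  have e9 := le_of_mul_le_mul_left e8 hAp
  have e10 : q ^ 2 * (q ^ 2 - q - 1) ^ 2 * M = (q ^ 2 - 1) ^ 2 * (q ^ 2 * ((q ^ 2 - q - 1) / (q ^ 2 - 1)) ^ 2 * M) := by
    field_simp
  rw [e10]
  calc _ ≤ (q ^ 2 - 1) ^ 2 * ((2 * q ^ 2 - 2 * q - 1) * G) := mul_le_mul_of_nonneg_left e9 (by positivity)
    _ = _ := by ring

/-- **two relations** -/
theorem two [Nontrivial C] (hI : Even (Fintype.card I)) (hC : Nat.card C = Nat.card F ^ 2) (L : C →ₗ[F] altG F I)
    (hL : Function.Injective L) :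
    ((Nat.card F : ℚ) - 2) * Nat.card (altG F I) ≤ Nat.card F * Nat.card (simM L) := by
  classical
  have hq1 : 1 < Nat.card F := one_lt_q
  have hqq : (2 : ℚ) ≤ Nat.card F := by exact_mod_cast hq1
  have hG : Nat.card (simM L) = (Finset.univ.filter fun ω : altG F I => ∃ (c : C) (x : I → F),
      smp L (ω + L c) x).card := by
    rw [Nat.card_eq_fintype_card, ← Fintype.card_subtype]
    exact Fintype.card_congr (Equiv.refl _)
  have hA2 : Nat.card {x : I → F // goodv L x} = (Finset.univ.filter (fun y : I → F => goodv L y)).card := by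
    rw [Nat.card_eq_fintype_card, Fintype.card_subtype]
  have h1 := bad_vec L hL
  have h2 := card_good_add L
  rw [hC] at h1
  have e0 : Nat.card F ^ 2 - 1 = (Nat.card F - 1) * (Nat.card F + 1) := by
    obtain ⟨t, ht⟩ := Nat.exists_eq_add_of_lt hq1
    rw [ht]
    have : 1 + t + 1 - 1 = t + 1 := by omega
    rw [this]
    have h : (1 + t + 1) ^ 2 = (t + 1) * (1 + t + 1 + 1) + 1 := by ring
    rw [h]; omega
  have h1' : Nat.card {x : I → F // ¬ goodv L x} * Nat.card F ^ 2 ≤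
      (Nat.card F + 1) * Nat.card F ^ Fintype.card I := by
    rw [e0, mul_assoc] at h1
    exact Nat.le_of_mul_le_mul_left h1 (by omega)
  have hb := A_lt L
  rw [hA2] at h2
  have hAge : (Nat.card F : ℚ) ^ Fintype.card I * ((Nat.card F : ℚ) ^ 2 - Nat.card F - 1) ≤
      ((Finset.univ.filter (fun y : I → F => goodv L y)).card : ℚ) * (Nat.card F : ℚ) ^ 2 := by
    have e1 : (Nat.card {x : I → F // ¬ goodv L x} : ℚ) * (Nat.card F : ℚ) ^ 2 ≤
        ((Nat.card F : ℚ) + 1) * (Nat.card F : ℚ) ^ Fintype.card I := by exact_mod_cast h1'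
    have e2 : ((Finset.univ.filter (fun y : I → F => goodv L y)).card : ℚ) +
        (Nat.card {x : I → F // ¬ goodv L x} : ℚ) = (Nat.card F : ℚ) ^ Fintype.card I := by exact_mod_cast h2
    nlinarith
  have hYp : (0 : ℚ) < (Nat.card F : ℚ) ^ Fintype.card I := by positivity
  have hAp : (0 : ℚ) < ((Finset.univ.filter (fun y : I → F => goodv L y)).card : ℚ) := by
    have : (0 : ℚ) < (Nat.card F : ℚ) ^ Fintype.card I * ((Nat.card F : ℚ) ^ 2 - Nat.card F - 1) :=
      mul_pos hYp (by nlinarith)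
    exact pos_of_mul_pos_left (this.trans_le hAge) (by positivity)
  have hA : 0 < (Finset.univ.filter (fun y : I → F => goodv L y)).card := by exact_mod_cast hAp
  rw [hG]
  set q : ℚ := (Nat.card F : ℚ) with hqd
  have hcS := card_S1_ge L
  have hDb := D_bound L
  have hRq : (Nat.card C : ℚ) = q ^ 2 := by rw [hC, hqd]; push_cast; ring
  rw [hRq, ← hqd] at hDb
  set Y : ℚ := q ^ Fintype.card I with hYd
  set A : ℚ := ((Finset.univ.filter (fun y : I → F => goodv L y)).card : ℚ) with hAd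
  have hq2 : 0 < q ^ 2 - 1 := by nlinarith
  have hq0 : 0 < q := by linarith
  have hqm : 0 < q - 1 := by linarith
  have hD0 : 0 ≤ ((q - 1) * Y + A * (q ^ 2 - q)) / q := by
    apply div_nonneg _ hq0.le
    have : 0 ≤ q ^ 2 - q := by nlinarith
    positivity
  have key := second hI L (((q - 1) * Y + A * (q ^ 2 - q)) / q) hD0 hA (by
      rw [hC]
      exact Nat.le_self_pow two_ne_zero _) (fun x hx => by
      rw [le_div_iff₀ hq0, mul_comm]
      have e1 := hDb x hx
      have e2 := hcS x hx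
      have hS : ∑ y ∈ Finset.univ.filter (fun y : I → F => goodv L y ∧ ∀ t : F, y ≠ t • x), ((dl L x y : ℚ) - 1) =
          ∑ y ∈ Finset.univ.filter (fun y : I → F => goodv L y ∧ ∀ t : F, y ≠ t • x), (dl L x y : ℚ) -
            (Finset.univ.filter (fun y : I → F => goodv L y ∧ ∀ t : F, y ≠ t • x)).card := by
        rw [Finset.sum_sub_distrib, Finset.sum_const, nsmul_eq_mul, mul_one]
      rw [hS]
      have e3 := mul_le_mul_of_nonneg_left e2 hq0.le
      have e4 : 0 ≤ q ^ 4 - 2 * q ^ 2 + q := by nlinarith [mul_nonneg (sub_nonneg.2 hqq) (pow_pos hq0 3).le, mul_nonneg (sub_nonneg.2 hqq) (pow_pos hq0 2).le]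
      nlinarith) ((q ^ 2 - q - 1) / (q * (q - 1))) (by
      rw [hRq, ← hqd]
      field_simp)
  rw [hRq, ← hqd, ← hAd, ← hYd] at key
  set M : ℚ := (Nat.card (altG F I) : ℚ) with hMd
  set G : ℚ := ((Finset.univ.filter fun ω : altG F I => ∃ (c : C) (x : I → F), smp L (ω + L c) x).card : ℚ)
  have hG0 : 0 ≤ G := Nat.cast_nonneg _
  have hM0 : 0 ≤ M := Nat.cast_nonneg _
  have hu : 0 < q ^ 2 - q - 1 := by nlinarith
  -- multiply by q (q-1)
  have e3 : q * (q - 1) ^ 2 * ((q ^ 2 - 1) * ((q ^ 2 - q - 1) / (q * (q - 1))) * Y +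
      q ^ 2 * (((q - 1) * Y + A * (q ^ 2 - q)) / q)) =
      (q - 1) * ((q ^ 2 - 1) * (q ^ 2 - q - 1) * Y + q ^ 2 * (q - 1) * ((q - 1) * Y + A * (q ^ 2 - q))) := by
    field_simp
  have e4 : q * (q - 1) ^ 2 * (q ^ 2 * A * ((q ^ 2 - q - 1) / (q * (q - 1))) ^ 2 * M * q) =
      q ^ 2 * (q ^ 2 - q - 1) ^ 2 * (A * M) := by
    field_simp
  have e5 : q ^ 2 * (q ^ 2 - q - 1) ^ 2 * (A * M) ≤
      G * ((q - 1) * ((q ^ 2 - 1) * (q ^ 2 - q - 1) * Y + q ^ 2 * (q - 1) * ((q - 1) * Y + A * (q ^ 2 - q)))) := by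
    rw [← e4, ← e3]
    calc _ ≤ q * (q - 1) ^ 2 * (G * _) := mul_le_mul_of_nonneg_left key (by positivity)
      _ = _ := by ring
  -- Y u <= A q^2
  have e6 : (q ^ 2 - q - 1) * ((q ^ 2 - 1) * (q ^ 2 - q - 1) * Y + q ^ 2 * (q - 1) * ((q - 1) * Y + A * (q ^ 2 - q))) ≤
      A * (q ^ 2 * ((q ^ 2 - 1) * (q ^ 2 - q - 1) + q ^ 2 * (q - 1) ^ 2 + q * (q - 1) ^ 2 * (q ^ 2 - q - 1))) := by
    have e7 : (Y * (q ^ 2 - q - 1)) * ((q ^ 2 - 1) * (q ^ 2 - q - 1) + q ^ 2 * (q - 1) ^ 2) ≤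
        (A * q ^ 2) * ((q ^ 2 - 1) * (q ^ 2 - q - 1) + q ^ 2 * (q - 1) ^ 2) :=
      mul_le_mul_of_nonneg_right hAge (by positivity)
    nlinarith
  have e8 : A * q ^ 2 * ((q ^ 2 - q - 1) ^ 3 * M) ≤ A * q ^ 2 * (G * ((q - 1) *
      ((q ^ 2 - 1) * (q ^ 2 - q - 1) + q ^ 2 * (q - 1) ^ 2 + q * (q - 1) ^ 2 * (q ^ 2 - q - 1)))) := by
    calc A * q ^ 2 * ((q ^ 2 - q - 1) ^ 3 * M) = (q ^ 2 - q - 1) * (q ^ 2 * (q ^ 2 - q - 1) ^ 2 * (A * M)) := by ring
      _ ≤ (q ^ 2 - q - 1) * (G * ((q - 1) * ((q ^ 2 - 1) * (q ^ 2 - q - 1) * Y +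
            q ^ 2 * (q - 1) * ((q - 1) * Y + A * (q ^ 2 - q))))) := mul_le_mul_of_nonneg_left e5 hu.le
      _ = (G * (q - 1)) * ((q ^ 2 - q - 1) * ((q ^ 2 - 1) * (q ^ 2 - q - 1) * Y +
            q ^ 2 * (q - 1) * ((q - 1) * Y + A * (q ^ 2 - q)))) := by ring
      _ ≤ (G * (q - 1)) * (A * (q ^ 2 * ((q ^ 2 - 1) * (q ^ 2 - q - 1) + q ^ 2 * (q - 1) ^ 2 +
            q * (q - 1) ^ 2 * (q ^ 2 - q - 1)))) := mul_le_mul_of_nonneg_left e6 (by positivity)
      _ = _ := by ring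
  have e9 := le_of_mul_le_mul_left e8 (by positivity)
  -- final numerical inequality
  have e10 : (q - 2) * ((q - 1) * ((q ^ 2 - 1) * (q ^ 2 - q - 1) + q ^ 2 * (q - 1) ^ 2 +
      q * (q - 1) ^ 2 * (q ^ 2 - q - 1))) ≤ q * (q ^ 2 - q - 1) ^ 3 := by
    obtain ⟨t, ht⟩ : ∃ t : ℚ, q = 2 + t := ⟨q - 2, by ring⟩
    have ht0 : 0 ≤ t := by linarith
    rw [ht, ← sub_nonneg]
    ring_nf
    positivity
  have hW : 0 < (q - 1) * ((q ^ 2 - 1) * (q ^ 2 - q - 1) + q ^ 2 * (q - 1) ^ 2 +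
      q * (q - 1) ^ 2 * (q ^ 2 - q - 1)) := by positivity
  set W := (q - 1) * ((q ^ 2 - 1) * (q ^ 2 - q - 1) + q ^ 2 * (q - 1) ^ 2 + q * (q - 1) ^ 2 * (q ^ 2 - q - 1))
  have e11 : W * ((q - 2) * M) ≤ W * (q * G) := by
    calc W * ((q - 2) * M) = ((q - 2) * W) * M := by ring
      _ ≤ (q * (q ^ 2 - q - 1) ^ 3) * M := mul_le_mul_of_nonneg_right e10 hM0
      _ = q * ((q ^ 2 - q - 1) ^ 3 * M) := by ring
      _ ≤ q * (G * W) := mul_le_mul_of_nonneg_left e9 hq0.le
      _ = _ := by ring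
  exact le_of_mul_le_mul_left e11 hW

end

end Pool.Agent.Q46.PX
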