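import Mathlib
import Pool.Agent.Q46.PIdx.Abs
import Pool.Agent.Q46.PX.D
import Pool.Agent.Q46.PX.E
import Pool.Agent.Q46.PX.G

/-! From alternating matrices modulo a prime power to classes of symbols. -/

set_option autoImplicit false
set_option linter.all false

open Matrix

noncomputable section

namespace Pool.Agent.Q46.PX

open Pool.Agent.Y109.PI Pool.Agent.Q46.PIdx

section

variable {I : Type*} [Fintype I] [DecidableEq I]

/-- alternating matrices modulo `n` -/
def altN (n : ℕ) (I : Type*) : AddSubgroup (Matrix I I (ZMod n)) where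
  carrier := {b | Alt b}
  add_mem' := fun {a b} ha hb => ⟨fun u => by rw [Matrix.add_apply, ha.1, hb.1, add_zero],
    fun u v => by rw [Matrix.add_apply, Matrix.add_apply, ha.2 u v, hb.2 u v]; ring⟩
  zero_mem' := ⟨fun u => rfl, fun u v => by simp⟩
  neg_mem' := fun {a} ha => ⟨fun u => by rw [Matrix.neg_apply, ha.1, neg_zero],
    fun u v => by rw [Matrix.neg_apply, Matrix.neg_apply, ha.2 u v]⟩

instance (n : ℕ) [NeZero n] : Finite (altN n I) := inferInstance

variable {G B : Type*} [CommGroup G] [CommGroup B] {s : G →* G →* B}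

/-- **the classes of symbols as a quotient of the alternating matrices modulo `n`** -/
theorem transferN (hanti : ∀ a b, s a b = (s b a)⁻¹) (n : ℕ) [NeZero n]
    (htors : ∀ a b, s a b ^ n = 1) (ε : G)
    (H : Subgroup G) (hε : ε ∈ H) (hdiag : ∀ a, s a a = 1 ∨ s a a = s a ε)
    (z : I → G) (hV : ∀ a ∈ H, ∀ b ∈ H, s a b ∈ (⊥ : Subgroup B)) (hlow : low s H ⊥ z ≤ ⊥) :
    ∃ f : altN n I →+ Additive B,
      (∀ (ω : altN n I) (w : I → I → ℤ), red n (dif w) = ω.1 → f ω = Additive.ofMul (Q s z w)) ∧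
      ∀ α : B, α ∈ Subgroup.closure {γ | ∃ a ∈ H ⊔ Subgroup.closure (Set.range z),
        ∃ b ∈ H ⊔ Subgroup.closure (Set.range z), γ = s a b} ↔ Additive.ofMul α ∈ f.range := by
  have hcongr : ∀ w w' : I → I → ℤ, red n (dif w) = red n (dif w') → Q s z w = Q s z w' := by
    intro w w' h
    have h1 := Q_congr hanti n htors ε H hε hdiag ⊥ z w w' (fun u v => by
      have h2 := congrFun (congrFun h u) v
      simp only [red, dif, Matrix.map_apply, Matrix.of_apply, eq_intCast] at h2
      rw [← ZMod.intCast_zmod_eq_zero_iff_dvd, Int.cast_sub, sub_eq_zero]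
      exact h2)
    have h3 := hlow h1
    rw [Subgroup.mem_bot, mul_inv_eq_one] at h3
    exact h3
  choose lf hlf using fun ω : altN n I => exists_lift n ω.1 ω.2
  let f : altN n I →+ Additive B :=
    AddMonoidHom.mk' (fun ω => Additive.ofMul (Q s z (lf ω))) (fun ω ω' => by
      rw [← ofMul_mul, ← Q_add]
      congr 1
      refine hcongr _ _ ?_
      rw [dif_add, red_add, hlf, hlf, hlf]
      rfl)
  have hf : ∀ (ω : altN n I) (w : I → I → ℤ), red n (dif w) = ω.1 →
      f ω = Additive.ofMul (Q s z w) := by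
    intro ω w h
    change Additive.ofMul (Q s z (lf ω)) = _
    congr 1
    exact hcongr _ _ (by rw [hlf, h])
  refine ⟨f, hf, fun α => ⟨fun hα => ?_, ?_⟩⟩
  · obtain ⟨w, hw⟩ := exists_Q hanti H ⊥ hV z α hα
    have h3 := hlow hw
    rw [Subgroup.mem_bot, mul_inv_eq_one] at h3
    refine ⟨⟨red n (dif w), (alt_dif w).map' _⟩, ?_⟩
    rw [hf _ w rfl, h3]
  · rintro ⟨ω, hω⟩
    have h1 : α = Q s z (lf ω) := by
      have h2 := hf ω (lf ω) (hlf ω)
      rw [h2] at hω
      exact (Additive.ofMul.injective hω).symm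
    rw [h1, Q]
    refine Subgroup.prod_mem _ fun q _ => Subgroup.zpow_mem _ (Subgroup.subset_closure ?_) _
    exact ⟨z q.1, le_sup_right (a := H) (Subgroup.subset_closure ⟨q.1, rfl⟩), z q.2,
      le_sup_right (a := H) (Subgroup.subset_closure ⟨q.2, rfl⟩), rfl⟩

/-- the reduction of alternating matrices -/
def redN {n p : ℕ} [Fact p.Prime] (h : p ∣ n) : altN n I →+ altG (ZMod p) I where
  toFun := fun ω => ⟨ω.1.map (ZMod.castHom h (ZMod p)), ω.2.map' _⟩
  map_zero' := by
    apply Subtype.ext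
    ext u v
    simp
  map_add' := fun a b => by
    apply Subtype.ext
    ext u v
    change ZMod.castHom h (ZMod p) (a.1 u v + b.1 u v) = _
    rw [map_add]
    rfl

theorem redN_red {n p : ℕ} [Fact p.Prime] (h : p ∣ n) (ω : altN n I) (w : I → I → ℤ) (hw : red n (dif w) = ω.1) :
    (redN h ω).1 = red p (dif w) := by
  ext u v
  change ZMod.castHom h (ZMod p) (ω.1 u v) = _
  rw [← hw]
  simp only [red, Matrix.map_apply, eq_intCast, map_intCast]

theorem redN_surj {n p : ℕ} [NeZero n] [Fact p.Prime] (h : p ∣ n) : Function.Surjective (redN (I := I) h) := by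
  intro ω
  haveI : NeZero p := ⟨(Fact.out : p.Prime).ne_zero⟩
  obtain ⟨w, hw⟩ := exists_lift p ω.1 ω.2
  refine ⟨⟨red n (dif w), (alt_dif w).map' _⟩, Subtype.ext ?_⟩
  rw [redN_red h _ w rfl, hw]

end

/-- counting along two homomorphisms -/
theorem card_two {A B N : Type*} [AddCommGroup A] [AddCommGroup B] [AddCommGroup N] [Finite A] [Finite B]
    (f : A →+ N) (π : A →+ B) (hπ : Function.Surjective π) (G : Set B) (good bad : Set N)
    (hbad : ∀ x, x ∈ bad ↔ x ∈ f.range ∧ x ∉ good) (hgood : ∀ x, x ∈ good → x ∈ f.range)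
    (hG : ∀ a, π a ∈ G → f a ∈ good) :
    ∃ u v : ℕ, 0 < u ∧ Nat.card f.range * u = Nat.card B * v ∧ Nat.card G * v ≤ Nat.card good * u ∧
      Nat.card good + Nat.card bad = Nat.card f.range := by
  classical
  have h1 := card_ran f
  have h2 := card_ran π
  have h3 : Nat.card π.range = Nat.card B := by
    refine Nat.card_congr (Equiv.subtypeUnivEquiv fun b => ?_)
    obtain ⟨a, rfl⟩ := hπ b
    exact ⟨a, rfl⟩
  rw [h3] at h2
  haveI hfin : Finite f.range := (Set.finite_range f).to_subtype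
  have hsum : Nat.card good + Nat.card bad = Nat.card f.range := by
    have h1 : Nat.card good = Nat.card {x : f.range // x.1 ∈ good} := Nat.card_congr
      ⟨fun x => ⟨⟨x.1, hgood _ x.2⟩, x.2⟩, fun x => ⟨x.1.1, x.2⟩, fun x => rfl, fun x => rfl⟩
    have h2 : Nat.card bad = Nat.card {x : f.range // ¬ x.1 ∈ good} := Nat.card_congr
      ⟨fun x => ⟨⟨x.1, ((hbad _).1 x.2).1⟩, ((hbad _).1 x.2).2⟩, fun x => ⟨x.1.1, (hbad _).2 ⟨x.1.2, x.2⟩⟩,
        fun x => rfl, fun x => rfl⟩
    haveI : Fintype f.range := Fintype.ofFinite _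
    rw [h1, h2, Nat.card_eq_fintype_card, Nat.card_eq_fintype_card, Nat.card_eq_fintype_card,
      Fintype.card_subtype_compl, Nat.add_sub_cancel' (Fintype.card_subtype_le _)]
  have h4 := card_fib f bad {a | π a ∉ G} (fun x hx => by
    obtain ⟨a, ha⟩ := ((hbad x).1 hx).1
    exact ⟨a, ha⟩) (fun a ha h => ((hbad _).1 ha).2 (hG a h))
  have h5 := card_fib π G {a | π a ∈ G} (fun b _ => hπ b) (fun a ha => ha)
  have h6 : Nat.card ({a | π a ∈ G} : Set A) + Nat.card ({a | π a ∉ G} : Set A) = Nat.card A := by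
    haveI : Fintype A := Fintype.ofFinite A
    have e1 : Nat.card ({a | π a ∈ G} : Set A) = Nat.card {a : A // π a ∈ G} := rfl
    have e2 : Nat.card ({a | π a ∉ G} : Set A) = Nat.card {a : A // ¬ π a ∈ G} := rfl
    rw [e1, e2, Nat.card_eq_fintype_card, Nat.card_eq_fintype_card, Nat.card_eq_fintype_card,
      Fintype.card_subtype_compl, Nat.add_sub_cancel' (Fintype.card_subtype_le _)]
  refine ⟨Nat.card f.ker, Nat.card π.ker, Nat.card_pos, by rw [h1, h2], ?_, hsum⟩
  have h7 : Nat.card good * Nat.card f.ker + Nat.card bad * Nat.card f.ker = Nat.card A := by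
    rw [← add_mul, hsum, h1]
  omega

end Pool.Agent.Q46.PX
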