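import Mathlib
import Pool.Agent.Q46.PX.H

/-! The index of the classes with a simple translate. -/

set_option autoImplicit false
set_option linter.all false

open scoped TensorProduct
open Matrix

noncomputable section

namespace Pool.Agent.Q46.PX

open Pool.Agent.Helper346.Bra Pool.Agent.Helper18.Br Pool.Agent.H552R3.SymBr Pool.Agent.H552R3.SymPred
  Pool.Agent.H552R3.Tsen Pool.Agent.Y109.PI Pool.Agent.Q46.PIdx

universe u

/-- **classes with a simple translate have small index** -/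
theorem good_of_sim {K : Type u} [Field K] (p : ℕ) [Fact p.Prime] (k : ℕ) (hn : 0 < p ^ k) {ζ : K}
    (hζ : IsPrimitiveRoot ζ (p ^ k)) {I : Type} [Fintype I] [DecidableEq I] (z : I → Kˣ)
    (hcongr : ∀ w w' : I → I → ℤ, red (p ^ k) (dif w) = red (p ^ k) (dif w') →
      Q (symHom hn hζ) z w = Q (symHom hn hζ) z w')
    (g : ℕ) (hg : 0 < g) (hI : Fintype.card I = 2 * g) (r : ℕ) (w : Fin r → I → I → ℤ)
    (hw : ∀ i, Q (symHom hn hζ) z (w i) = 1) (Ω : I → I → ℤ) (ω : altG (ZMod p) I) (hω : red p (dif Ω) = ω.1)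
    (hs : ω ∈ simM (LL p w)) : IndDvd (Q (symHom hn hζ) z Ω) ((p ^ k) ^ (g - 1)) := by
  have hp : p.Prime := Fact.out
  haveI : NeZero p := ⟨hp.ne_zero⟩
  obtain ⟨c, x, hx, ⟨y, hy, d, hd⟩, hcard⟩ := hs
  -- one of the relations pairs x and y
  obtain ⟨i, hi⟩ : ∃ i, x ⬝ᵥ (red p (dif (w i)) *ᵥ y) ≠ 0 := by
    by_contra hcon
    push Not at hcon
    apply hd
    rw [LL_apply, Matrix.sum_mulVec, dotProduct_sum]
    refine Finset.sum_eq_zero fun i _ => ?_
    rw [Matrix.smul_mulVec, dotProduct_smul, hcon, smul_zero]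
  obtain ⟨hx0, hxy⟩ := pr_indep (L := LL p w) ⟨d, hd⟩
  set η := ω + LL p w c with hη
  -- the integral lift
  let Ω' : I → I → ℤ := Ω + ∑ j, ((c j).val : ℤ) • w j
  have hdif' : dif Ω' = dif Ω + ∑ j, ((c j).val : ℤ) • dif (w j) := by
    rw [← dif_comb]
    ext u v
    simp only [Ω', dif, Matrix.of_apply, Matrix.add_apply, Pi.add_apply]
    ring
  have hred : red p (dif Ω') = η.1 := by
    rw [hdif', red_add_sum, hη, Submodule.coe_add, LL_apply, hω]
    simp only [vcast]
  have hker : ∀ v, red p (dif Ω') *ᵥ v = 0 → ∃ s t : ZMod p, v = s • x + t • y := by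
    intro v hv
    rw [hred] at hv
    have hfr : Module.finrank (ZMod p) (kr η) = 2 := by
      have h1 := card_kr η
      rw [h1] at hcard
      exact Nat.pow_right_injective (one_lt_q (F := ZMod p)) hcard
    have hli : LinearIndependent (ZMod p) ![(⟨x, mem_kr.2 hx⟩ : kr η), ⟨y, mem_kr.2 hy⟩] := by
      rw [LinearIndependent.pair_iff' (by
        intro h
        exact hx0 (congrArg Subtype.val h))]
      intro t h
      exact hxy t (congrArg Subtype.val h).symm
    have hspan := hli.span_eq_top_of_card_eq_finrank (by rw [hfr, Fintype.card_fin])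
    have hv' : (⟨v, mem_kr.2 hv⟩ : kr η) ∈ Submodule.span (ZMod p)
        (Set.range ![(⟨x, mem_kr.2 hx⟩ : kr η), ⟨y, mem_kr.2 hy⟩]) := by
      rw [hspan]; exact Submodule.mem_top
    have hr : Set.range ![(⟨x, mem_kr.2 hx⟩ : kr η), ⟨y, mem_kr.2 hy⟩] =
        {(⟨x, mem_kr.2 hx⟩ : kr η), ⟨y, mem_kr.2 hy⟩} := by
      simp [Set.pair_comm]
    rw [hr] at hv'
    obtain ⟨s, t, hst⟩ := Submodule.mem_span_pair.1 hv'
    exact ⟨s, t, (congrArg Subtype.val hst).symm⟩
  obtain ⟨t, P, hdet, hPk, hP0⟩ := exists_div g hI p (dif Ω') (dif (w i)) (alt_dif _) (alt_dif _) x y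
    (by rw [hred]; exact hx) (by rw [hred]; exact hy) hi hker k
  let Ω'' : I → I → ℤ := Ω' + t • w i
  have hdif'' : dif Ω'' = dif Ω' + t • dif (w i) := by
    ext u v
    simp only [Ω'', dif, Matrix.of_apply, Matrix.add_apply, Pi.add_apply, Pi.smul_apply, Matrix.smul_apply,
      smul_eq_mul]
    ring
  rw [← hdif''] at hdet
  obtain ⟨e, a, b, hmat, hPd, hd0⟩ := prod_of_det g hI (dif Ω'') (alt_dif _) P hdet hP0
  obtain ⟨m, hm1, hm2, hm3⟩ := exists_mult p hp k g hg e (hPk.trans hPd) hd0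
  -- the class
  have hQ1 : Q (symHom hn hζ) z Ω = Q (symHom hn hζ) z Ω'' := by
    simp only [Ω'', Ω']
    rw [Q_add, Q_add, Q_comb, Q_smul, hw i, _root_.one_zpow, mul_one]
    rw [Finset.prod_eq_one (fun j _ => by rw [hw j, _root_.one_zpow]), mul_one]
  have hQ2 : Q (symHom hn hζ) z Ω'' = ∏ j, symCl hn hζ (mon z (a j)) (mon z (b j)) ^ e j := by
    have h1 : Q (symHom hn hζ) z (∑ j, e j • fun u v => a j u * b j v) =
        ∏ j, symCl hn hζ (mon z (a j)) (mon z (b j)) ^ e j := by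
      rw [Q_sum]
      refine Finset.prod_congr rfl fun j _ => ?_
      rw [Q_smul, ← s_mon]
      rfl
    rw [← h1]
    refine hcongr _ _ ?_
    congr 1
    rw [hmat]
    ext u v
    simp only [dif, Matrix.of_apply, Matrix.sum_apply, Matrix.smul_apply, wdg, smul_eq_mul, Finset.sum_apply,
      Pi.smul_apply, ← Finset.sum_sub_distrib]
    refine Finset.sum_congr rfl fun j _ => ?_
    ring
  rw [hQ1, hQ2]
  have h1 := ind_roots hn g (∏ j, m j) hm3 K ζ hζ (fun j => mon z (a j)) (fun j => mon z (b j)) m e rfl hm1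
  intro D _ _ _ _ hD
  exact (h1 D hD).trans hm2

end Pool.Agent.Q46.PX
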